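import Pool.Graph.R_seed8.Y40.WC.Lattice

/-! Lattice width and Fine adjoints of convex bodies: growth of the width, Helly's theorem. -/

set_option autoImplicit false

open Set Module Filter Topology

namespace Pool.Agent.KS6_31.FQ

open Pool.Agent.Results.MP_f2eb3d_co.WidthOne

/-- The least value of the functional `u` on `K`. -/
noncomputable def lo {n : ℕ} (K : Set (Fin n → ℝ)) (u : Fin n → ℤ) : ℝ := sInf (lin u '' K)

/-- The greatest value of the functional `u` on `K`. -/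
noncomputable def hi {n : ℕ} (K : Set (Fin n → ℝ)) (u : Fin n → ℤ) : ℝ := sSup (lin u '' K)

/-- A convex body: compact, convex, with nonempty interior. -/
def IsBody {n : ℕ} (K : Set (Fin n → ℝ)) : Prop :=
  IsCompact K ∧ Convex ℝ K ∧ (interior K).Nonempty

/-- The lattice width of `K`: the infimum of the widths of `K` along the nonzero integer
functionals. -/
noncomputable def latWidth {n : ℕ} (K : Set (Fin n → ℝ)) : ℝ :=
  sInf {r : ℝ | ∃ u : Fin n → ℤ, u ≠ 0 ∧ r = hi K u - lo K u}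

/-- The Fine adjoint `K^{F(s)}`: the points at distance at least `s` from the supporting hyperplanes
of `K` of all nonzero integer functionals. -/
def fineAdjoint {n : ℕ} (K : Set (Fin n → ℝ)) (s : ℝ) : Set (Fin n → ℝ) :=
  {x | ∀ u : Fin n → ℤ, u ≠ 0 → s ≤ lin u x - lo K u}

/-- The Fine `ℚ`-codegree. -/
noncomputable def fineCodeg {n : ℕ} (K : Set (Fin n → ℝ)) : ℝ :=
  (sSup {s : ℝ | 0 < s ∧ (fineAdjoint K s).Nonempty})⁻¹

variable {n : ℕ} {K : Set (Fin n → ℝ)}

theorem IsBody.nonempty (hK : IsBody K) : K.Nonempty := hK.2.2.mono interior_subset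

theorem lo_le (hK : IsBody K) (u : Fin n → ℤ) {x : Fin n → ℝ} (hx : x ∈ K) : lo K u ≤ lin u x :=
  csInf_le (hK.1.image (continuous_lin u)).bddBelow ⟨x, hx, rfl⟩

theorem le_hi (hK : IsBody K) (u : Fin n → ℤ) {x : Fin n → ℝ} (hx : x ∈ K) : lin u x ≤ hi K u :=
  le_csSup (hK.1.image (continuous_lin u)).bddAbove ⟨x, hx, rfl⟩

theorem exists_lo (hK : IsBody K) (u : Fin n → ℤ) : ∃ x ∈ K, lin u x = lo K u := by
  obtain ⟨x, hx, h⟩ := (hK.1.image (continuous_lin u)).sInf_mem (hK.nonempty.image _)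
  exact ⟨x, hx, h⟩

theorem exists_hi (hK : IsBody K) (u : Fin n → ℤ) : ∃ x ∈ K, lin u x = hi K u := by
  obtain ⟨x, hx, h⟩ := (hK.1.image (continuous_lin u)).sSup_mem (hK.nonempty.image _)
  exact ⟨x, hx, h⟩

theorem le_lo (hne : K.Nonempty) {u : Fin n → ℤ} {c : ℝ} (h : ∀ x ∈ K, c ≤ lin u x) :
    c ≤ lo K u := by
  apply le_csInf (hne.image _)
  rintro _ ⟨x, hx, rfl⟩
  exact h x hx

theorem hi_le (hne : K.Nonempty) {u : Fin n → ℤ} {c : ℝ} (h : ∀ x ∈ K, lin u x ≤ c) :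
    hi K u ≤ c := by
  apply csSup_le (hne.image _)
  rintro _ ⟨x, hx, rfl⟩
  exact h x hx

theorem lin_single (u : Fin n → ℤ) (i : Fin n) (c : ℝ) :
    lin u (Pi.single i c) = (u i : ℝ) * c := by
  simp [lin, Pi.single_apply]

/-- The widths grow at least linearly. -/
theorem width_growth (hK : IsBody K) :
    ∃ r : ℝ, 0 < r ∧ ∀ (u : Fin n → ℤ) (i : Fin n), r * |(u i : ℝ)| ≤ hi K u - lo K u := by
  obtain ⟨x0, hx0⟩ := hK.2.2
  obtain ⟨e, he, hb⟩ := Metric.mem_nhds_iff.1 (mem_interior_iff_mem_nhds.1 hx0)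
  refine ⟨e, he, fun u i => ?_⟩
  have hmem : ∀ c : ℝ, |c| < e → x0 + Pi.single i c ∈ K := by
    intro c hc
    apply hb
    rw [Metric.mem_ball, dist_pi_lt_iff he]
    intro j
    rw [Pi.add_apply, Real.dist_eq, add_sub_cancel_left, Pi.single_apply]
    split_ifs
    · exact hc
    · simpa using he
  have h1 := hmem (e / 2) (by rw [abs_of_pos (by positivity)]; linarith)
  have h2 := hmem (-(e / 2)) (by rw [abs_neg, abs_of_pos (by positivity)]; linarith)
  have a1 := lo_le hK u h1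
  have a2 := le_hi hK u h1
  have a3 := lo_le hK u h2
  have a4 := le_hi hK u h2
  rw [lin_add, lin_single] at a1 a2 a3 a4
  rcases abs_cases (u i : ℝ) with ⟨h, -⟩ | ⟨h, -⟩ <;> rw [h] <;> linarith

theorem finite_width (hK : IsBody K) (M : ℝ) :
    {u : Fin n → ℤ | hi K u - lo K u ≤ M}.Finite := by
  obtain ⟨r, hr, h⟩ := width_growth hK
  refine (Set.finite_Icc (fun _ : Fin n => -⌈M / r⌉) (fun _ => ⌈M / r⌉)).subset ?_
  intro u hu
  have hu' : hi K u - lo K u ≤ M := hu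
  have h1 : ∀ i, |(u i : ℝ)| ≤ ⌈M / r⌉ := fun i =>
    ((le_div_iff₀ hr).2 (by linarith [h u i])).trans (Int.le_ceil _)
  constructor
  · intro i
    have := neg_le_of_abs_le (h1 i)
    exact_mod_cast this
  · intro i
    have := le_of_abs_le (h1 i)
    exact_mod_cast this

theorem latWidth_spec (hn : 1 ≤ n) (hK : IsBody K) :
    (∃ u : Fin n → ℤ, u ≠ 0 ∧ hi K u - lo K u = latWidth K) ∧
      (∀ u : Fin n → ℤ, u ≠ 0 → latWidth K ≤ hi K u - lo K u) ∧ 0 < latWidth K := by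
  have he : (fun _ => 1 : Fin n → ℤ) ≠ 0 := by
    intro h
    have := congrFun h ⟨0, hn⟩
    simp at this
  obtain ⟨u0, ⟨hu0, hu0'⟩, hmin⟩ := Set.exists_min_image
    {u : Fin n → ℤ | u ≠ 0 ∧ hi K u - lo K u ≤ hi K (fun _ => 1) - lo K (fun _ => 1)}
    (fun u => hi K u - lo K u)
    ((finite_width hK _).subset fun u hu => hu.2) ⟨_, he, le_rfl⟩
  have hmin' : ∀ u : Fin n → ℤ, u ≠ 0 → hi K u0 - lo K u0 ≤ hi K u - lo K u := by
    intro u hu
    rcases le_total (hi K u - lo K u) (hi K (fun _ => 1) - lo K (fun _ => 1)) with h | h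
    · exact hmin u ⟨hu, h⟩
    · exact hu0'.trans h
  have hleast : IsLeast {r : ℝ | ∃ u : Fin n → ℤ, u ≠ 0 ∧ r = hi K u - lo K u}
      (hi K u0 - lo K u0) := by
    refine ⟨⟨u0, hu0, rfl⟩, ?_⟩
    rintro _ ⟨u, hu, rfl⟩
    exact hmin' u hu
  have heq : latWidth K = hi K u0 - lo K u0 := hleast.csInf_eq
  refine ⟨⟨u0, hu0, heq.symm⟩, fun u hu => heq ▸ hmin' u hu, ?_⟩
  rw [heq]
  obtain ⟨r, hr, h⟩ := width_growth hK
  have hxi : ∃ i, u0 i ≠ 0 := by
    by_contra hc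
    push Not at hc
    exact hu0 (funext hc)
  obtain ⟨i, hi'⟩ := hxi
  have h1 : 0 < |(u0 i : ℝ)| := abs_pos.2 (by exact_mod_cast hi')
  exact lt_of_lt_of_le (mul_pos hr h1) (h u0 i)

theorem helly (hK : IsBody K) (t : ℝ)
    (h : ∀ T : Finset (Fin n → ℤ), (∀ u ∈ T, u ≠ 0) → T.card ≤ n + 1 →
      ∃ x ∈ K, ∀ u ∈ T, t ≤ lin u x - lo K u) : (fineAdjoint K t).Nonempty := by
  classical
  let ι := {u : Fin n → ℤ // u ≠ 0}
  let F : ι → Set (Fin n → ℝ) := fun p => K ∩ {x | t + lo K p.1 ≤ lin p.1 x}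
  have key := Convex.helly_theorem_compact' (𝕜 := ℝ) (F := F)
    (fun p => hK.2.1.inter (convex_ge _ _))
    (fun p => hK.1.inter_right (isClosed_le continuous_const (continuous_lin _)))
    (by
      intro I hI
      rw [finrank_fintype_fun_eq_card, Fintype.card_fin] at hI
      obtain ⟨x, hx, hx'⟩ := h (I.image Subtype.val) (by
        intro u hu
        obtain ⟨p, -, rfl⟩ := Finset.mem_image.1 hu
        exact p.2) (Finset.card_image_le.trans hI)
      refine ⟨x, ?_⟩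
      rw [Set.mem_iInter₂]
      intro p hp
      refine ⟨hx, ?_⟩
      have := hx' p.1 (Finset.mem_image_of_mem _ hp)
      show t + lo K p.1 ≤ lin p.1 x
      linarith)
  obtain ⟨x, hx⟩ := key
  rw [Set.mem_iInter] at hx
  refine ⟨x, fun u hu => ?_⟩
  have : t + lo K u ≤ lin u x := (hx ⟨u, hu⟩).2
  linarith

theorem combo (hK : IsBody K) {ι : Type} (I : Finset ι) (y : ι → Fin n → ℝ)
    (hy : ∀ i ∈ I, y i ∈ K) (c : ι → ℝ) (hc : ∀ i ∈ I, 0 ≤ c i) (h1 : ∑ i ∈ I, c i = 1) :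
    (∑ i ∈ I, c i • y i) ∈ K ∧ ∀ u : Fin n → ℤ,
      lin u (∑ i ∈ I, c i • y i) - lo K u = ∑ i ∈ I, c i * (lin u (y i) - lo K u) := by
  refine ⟨hK.2.1.sum_mem hc h1 hy, fun u => ?_⟩
  rw [lin_sum]
  simp only [lin_smul, mul_sub, Finset.sum_sub_distrib]
  rw [← Finset.sum_mul, h1, one_mul]

theorem weights (hK : IsBody K) (T : Finset (Fin n → ℤ)) (c : (Fin n → ℤ) → ℝ)
    (hc : ∀ u ∈ T, 0 ≤ c u) (h1 : ∑ u ∈ T, c u = 1) :
    ∃ x ∈ K, ∀ u ∈ T, c u * (hi K u - lo K u) ≤ lin u x - lo K u := by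
  classical
  choose y hy hy' using fun u => exists_hi hK u
  obtain ⟨hm, hv⟩ := combo hK T y (fun u _ => hy u) c hc h1
  refine ⟨_, hm, fun u hu => ?_⟩
  rw [hv u, ← Finset.add_sum_erase _ _ hu, hy' u]
  have : 0 ≤ ∑ v ∈ T.erase u, c v * (lin u (y v) - lo K u) :=
    Finset.sum_nonneg fun v hv => mul_nonneg (hc v (Finset.mem_of_mem_erase hv))
      (sub_nonneg.2 (lo_le hK u (hy v)))
  linarith

/-- Uniform weights. -/
theorem uniform (hn : 1 ≤ n) (hK : IsBody K) (T : Finset (Fin n → ℤ)) (hT : ∀ u ∈ T, u ≠ 0)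
    (m : ℕ) (hm : T.card ≤ m) :
    ∃ x ∈ K, ∀ u ∈ T, latWidth K / m ≤ lin u x - lo K u := by
  rcases T.eq_empty_or_nonempty with rfl | hne
  · obtain ⟨x, hx⟩ := hK.nonempty
    exact ⟨x, hx, fun u hu => absurd hu (Finset.notMem_empty u)⟩
  have hc : (0 : ℝ) < T.card := by exact_mod_cast hne.card_pos
  obtain ⟨x, hx, h⟩ := weights hK T (fun _ => (T.card : ℝ)⁻¹) (fun _ _ => inv_nonneg.2 hc.le)
    (by rw [Finset.sum_const, nsmul_eq_mul, mul_inv_cancel₀ hc.ne'])
  obtain ⟨-, hw, hpos⟩ := latWidth_spec hn hK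
  refine ⟨x, hx, fun u hu => le_trans ?_ (h u hu)⟩
  have h1 := hw u (hT u hu)
  have h2 : (T.card : ℝ) ≤ m := by exact_mod_cast hm
  have h3 : ((m : ℝ))⁻¹ ≤ (T.card : ℝ)⁻¹ := inv_anti₀ hc h2
  have h4 : (0 : ℝ) ≤ (T.card : ℝ)⁻¹ := inv_nonneg.2 hc.le
  calc latWidth K / m = (m : ℝ)⁻¹ * latWidth K := by rw [div_eq_inv_mul]
    _ ≤ (T.card : ℝ)⁻¹ * latWidth K := mul_le_mul_of_nonneg_right h3 hpos.le
    _ ≤ (T.card : ℝ)⁻¹ * (hi K u - lo K u) := mul_le_mul_of_nonneg_left h1 h4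

theorem fine_nonempty (hn : 1 ≤ n) (hK : IsBody K) :
    (fineAdjoint K (latWidth K / (n + 1))).Nonempty := by
  apply helly hK
  intro T hT hc
  obtain ⟨x, hx, h⟩ := uniform hn hK T hT (n + 1) hc
  refine ⟨x, hx, fun u hu => ?_⟩
  have := h u hu
  push_cast at this
  exact this

/-- A set of `n + 1` functionals that cannot be improved. -/
def Bad {n : ℕ} (K : Set (Fin n → ℝ)) (T : Finset (Fin n → ℤ)) : Prop :=
  (∀ u ∈ T, u ≠ 0) ∧ T.card = n + 1 ∧
    ¬ ∃ x ∈ K, ∀ u ∈ T, latWidth K / (n + 1) < lin u x - lo K u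

theorem gap (hn : 1 ≤ n) (hK : IsBody K) (h : ∀ T, ¬ Bad K T) :
    ∃ s, latWidth K / (n + 1) < s ∧ (fineAdjoint K s).Nonempty := by
  classical
  obtain ⟨-, hw, hpos⟩ := latWidth_spec hn hK
  set w := latWidth K with hwdef
  have hn0 : (0 : ℝ) < n := by exact_mod_cast hn
  have hn1 : (0 : ℝ) < (n : ℝ) + 1 := by positivity
  set F := (finite_width hK (w + 1)).toFinset with hF
  obtain ⟨δ, hδ⟩ : ∃ δ : ℝ, δ = 1 / (2 * n * (n + 1) * (w + 1)) := ⟨_, rfl⟩
  have hδ0 : 0 < δ := by rw [hδ]; positivity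
  have hδ1 : n * δ * (w + 1) = 1 / (2 * (n + 1)) := by
    rw [hδ]; field_simp
  have small : ∀ a : ℝ, 0 < a → ∀ᶠ e : ℝ in 𝓝[>] 0, e < a := fun a ha =>
    mem_nhdsWithin_of_mem_nhds (Iio_mem_nhds ha)
  have E3 : ∀ᶠ e : ℝ in 𝓝[>] 0, ∀ T ∈ F.powersetCard (n + 1), (∀ u ∈ T, u ≠ 0) →
      ∃ x ∈ K, ∀ u ∈ T, w / (n + 1) + e ≤ lin u x - lo K u := by
    rw [Filter.eventually_all_finset]
    intro T hT
    by_cases hT0 : ∀ u ∈ T, u ≠ 0
    · have h1 : ∃ x ∈ K, ∀ u ∈ T, w / (n + 1) < lin u x - lo K u := by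
        by_contra hc
        exact h T ⟨hT0, (Finset.mem_powersetCard.1 hT).2, hc⟩
      obtain ⟨x, hx, hx'⟩ := h1
      have h2 : ∀ᶠ e : ℝ in 𝓝[>] 0, ∀ u ∈ T, e < lin u x - lo K u - w / (n + 1) := by
        rw [Filter.eventually_all_finset]
        intro u hu
        exact small _ (sub_pos.2 (hx' u hu))
      filter_upwards [h2] with e he _
      exact ⟨x, hx, fun u hu => by linarith [he u hu]⟩
    · exact Filter.Eventually.of_forall fun e h0 => absurd h0 hT0
  obtain ⟨e, ⟨⟨⟨he1, he2⟩, he3⟩, he4⟩, he0⟩ :=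
    ((((small (w / (n * (n + 1))) (by positivity)).and
      (small (δ * w) (by positivity))).and (small (1 / (2 * (n + 1))) (by positivity))).and
      E3).and self_mem_nhdsWithin |>.exists
  have he0' : 0 < e := he0
  refine ⟨w / (n + 1) + e, by linarith, helly hK _ fun T hT hcard => ?_⟩
  rcases Nat.lt_or_ge n T.card with hc | hc
  · have hcd : T.card = n + 1 := le_antisymm hcard hc
    by_cases hTF : T ⊆ F
    · exact he4 T (Finset.mem_powersetCard.2 ⟨hTF, hcd⟩) hT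
    · obtain ⟨v, hv, hvF⟩ := Finset.not_subset.1 hTF
      have hvw : w + 1 < hi K v - lo K v := by
        by_contra hcon
        apply hvF
        rw [hF, Set.Finite.mem_toFinset]
        exact not_lt.1 hcon
      have hpos1 : 0 ≤ 1 / ((n : ℝ) + 1) - n * δ := by
        have h5 : n * δ ≤ n * δ * (w + 1) := by
          apply le_mul_of_one_le_right (by positivity)
          linarith
        have h6 : 1 / (2 * ((n : ℝ) + 1)) ≤ 1 / ((n : ℝ) + 1) := by
          apply one_div_le_one_div_of_le hn1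
          linarith
        linarith
      obtain ⟨x, hx, hx'⟩ := weights hK T
        (fun u => if u = v then 1 / ((n : ℝ) + 1) - n * δ else 1 / ((n : ℝ) + 1) + δ)
        (fun u _ => by
          split_ifs
          · exact hpos1
          · positivity)
        (by
          rw [← Finset.add_sum_erase _ _ hv, if_pos rfl,
            Finset.sum_congr rfl (g := fun _ => 1 / ((n : ℝ) + 1) + δ)
              (fun u hu => if_neg (Finset.ne_of_mem_erase hu)),
            Finset.sum_const, Finset.card_erase_of_mem hv, hcd, Nat.add_sub_cancel, nsmul_eq_mul]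
          field_simp
          ring)
      refine ⟨x, hx, fun u hu => le_trans ?_ (hx' u hu)⟩
      by_cases huv : u = v
      · subst huv
        simp only [if_true]
        have h7 : (1 / ((n : ℝ) + 1) - n * δ) * (w + 1) ≤
            (1 / ((n : ℝ) + 1) - n * δ) * (hi K u - lo K u) :=
          mul_le_mul_of_nonneg_left hvw.le hpos1
        have h8 : (1 / ((n : ℝ) + 1) - n * δ) * (w + 1) =
            w / (n + 1) + 1 / (2 * (n + 1)) := by
          rw [sub_mul, hδ1]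
          field_simp
          ring
        linarith
      · simp only [if_neg huv]
        have h7 : (1 / ((n : ℝ) + 1) + δ) * w ≤
            (1 / ((n : ℝ) + 1) + δ) * (hi K u - lo K u) :=
          mul_le_mul_of_nonneg_left (hw u (hT u hu)) (by positivity)
        have h8 : (1 / ((n : ℝ) + 1) + δ) * w = w / (n + 1) + δ * w := by ring
        linarith
  · obtain ⟨x, hx, hx'⟩ := uniform hn hK T hT n hc
    refine ⟨x, hx, fun u hu => le_trans ?_ (hx' u hu)⟩
    have h7 : w / n = w / (n + 1) + w / (n * (n + 1)) := by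
      field_simp
    rw [← hwdef, h7]
    linarith

end Pool.Agent.KS6_31.FQ
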