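import Pool.Agent.KS6_31.FQ.A

/-! The case of equality: the body is a unimodular copy of a dilated standard simplex. -/

set_option autoImplicit false

open Set Module Filter Topology

namespace Pool.Agent.KS6_31.FQ

open Pool.Agent.Results.MP_f2eb3d_co.WidthOne

/-- `K` is the image of the simplex `r Δ_n = {x | x_j ≥ 0, ∑ x_j ≤ r}` under `x ↦ A x + t` with an
integer matrix `A` of determinant `1` or `-1` and a real vector `t`. -/
def IsStdSimplex {n : ℕ} (K : Set (Fin n → ℝ)) (r : ℝ) : Prop :=
  ∃ (A : Matrix (Fin n) (Fin n) ℤ) (t : Fin n → ℝ), IsUnit A.det ∧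
    K = (fun (x : Fin n → ℝ) (i : Fin n) => (∑ j, (A i j : ℝ) * x j) + t i) ''
      {x | (∀ j, 0 ≤ x j) ∧ ∑ j, x j ≤ r}

variable {n : ℕ} {K : Set (Fin n → ℝ)}

theorem bad_spec (hn : 1 ≤ n) (hK : IsBody K) {T : Finset (Fin n → ℤ)} (hT : Bad K T) :
    ∃ (a : Fin (n + 1) → Fin n → ℤ) (y : Fin (n + 1) → Fin n → ℝ), (∀ i, y i ∈ K) ∧
      ∀ i j, lin (a i) (y j) - lo K (a i) = if i = j then latWidth K else 0 := by
  classical
  obtain ⟨hT0, hcard, hbad⟩ := hT
  obtain ⟨-, hw, hpos⟩ := latWidth_spec hn hK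
  set w := latWidth K with hwdef
  have hn0 : (0 : ℝ) < n := by exact_mod_cast hn
  have hn1 : (0 : ℝ) < (n : ℝ) + 1 := by positivity
  let e := T.equivFinOfCardEq hcard
  let a : Fin (n + 1) → Fin n → ℤ := fun i => (e.symm i).1
  have haT : ∀ i, a i ∈ T := fun i => (e.symm i).2
  choose y hy hy' using fun i => exists_hi hK (a i)
  have hd0 : ∀ i j, 0 ≤ lin (a i) (y j) - lo K (a i) := fun i j =>
    sub_nonneg.2 (lo_le hK _ (hy j))
  have hdw : ∀ i, w ≤ lin (a i) (y i) - lo K (a i) := by
    intro i
    rw [hy' i]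
    exact hw _ (hT0 _ (haT i))
  have small : ∀ a : ℝ, 0 < a → ∀ᶠ e : ℝ in 𝓝[>] 0, e < a := fun a ha =>
    mem_nhdsWithin_of_mem_nhds (Iio_mem_nhds ha)
  have hS : ∀ i, ∑ j, (lin (a i) (y j) - lo K (a i)) ≤ w := by
    intro i
    by_contra hcon
    push Not at hcon
    set S := ∑ j, (lin (a i) (y j) - lo K (a i)) with hSdef
    set D := lin (a i) (y i) - lo K (a i) with hD
    have hD0 : 0 < D := lt_of_lt_of_le hpos (hdw i)
    obtain ⟨δ, ⟨h1, h2⟩, h0⟩ := (((small (1 / ((n + 1) * (n + 1))) (by positivity)).and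
      (small ((S - w) / ((n + 1) * (n + 1) * D))
        (div_pos (sub_pos.2 hcon) (by positivity)))).and self_mem_nhdsWithin).exists
    have hδ : 0 < δ := h0
    have h1' : (n + 1) * δ < 1 / ((n : ℝ) + 1) := by
      rw [lt_div_iff₀ (by positivity)] at h1 ⊢
      linarith
    have h2' : (n + 1) * δ * D < (S - w) / (n + 1) := by
      rw [lt_div_iff₀ (by positivity)] at h2 ⊢
      linarith
    obtain ⟨hm, hv⟩ := combo hK Finset.univ y (fun i _ => hy i)
      (fun j => (1 / ((n : ℝ) + 1) + δ) - if j = i then (n + 1) * δ else 0)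
      (fun j _ => by
        split_ifs
        · linarith
        · rw [sub_zero]; positivity)
      (by
        rw [Finset.sum_sub_distrib, Finset.sum_const, Finset.card_univ, Fintype.card_fin,
          nsmul_eq_mul, Finset.sum_ite_eq' Finset.univ i, if_pos (Finset.mem_univ _)]
        push_cast
        field_simp
        ring)
    apply hbad
    refine ⟨_, hm, fun u hu => ?_⟩
    obtain ⟨k, rfl⟩ : ∃ k, a k = u := ⟨e ⟨u, hu⟩, by simp [a]⟩
    rw [hv (a k)]
    have hsplit : ∑ j, ((1 / ((n : ℝ) + 1) + δ) - if j = i then (n + 1) * δ else 0) *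
        (lin (a k) (y j) - lo K (a k)) =
        (1 / ((n : ℝ) + 1) + δ) * ∑ j, (lin (a k) (y j) - lo K (a k)) -
          (n + 1) * δ * (lin (a k) (y i) - lo K (a k)) := by
      simp only [sub_mul _ _ (lin (a k) _ - lo K (a k)), Finset.sum_sub_distrib,
        ← Finset.mul_sum, ite_mul, zero_mul]
      rw [Finset.sum_ite_eq' Finset.univ i, if_pos (Finset.mem_univ _)]
    by_cases hki : k = i
    · subst hki
      rw [hsplit, ← hSdef, ← hD]
      have h5 : (1 / ((n : ℝ) + 1) + δ) * S = S / (n + 1) + δ * S := by ring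
      have h6 : 0 < δ * S := mul_pos hδ (hpos.trans hcon)
      have h7 : (S - w) / ((n : ℝ) + 1) = S / (n + 1) - w / (n + 1) := by ring
      linarith
    · have h8 : (1 / ((n : ℝ) + 1) + δ) * (lin (a k) (y k) - lo K (a k)) ≤
          ∑ j, ((1 / ((n : ℝ) + 1) + δ) - if j = i then (n + 1) * δ else 0) *
            (lin (a k) (y j) - lo K (a k)) := by
        have h9 := Finset.single_le_sum (s := Finset.univ) (f := fun j =>
          ((1 / ((n : ℝ) + 1) + δ) - if j = i then (n + 1) * δ else 0) *
            (lin (a k) (y j) - lo K (a k))) (fun j _ => by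
              apply mul_nonneg _ (hd0 k j)
              split_ifs
              · linarith
              · rw [sub_zero]; positivity) (Finset.mem_univ k)
        simp only [if_neg hki, sub_zero] at h9
        exact h9
      refine lt_of_lt_of_le ?_ h8
      have h10 : (1 / ((n : ℝ) + 1) + δ) * w ≤
          (1 / ((n : ℝ) + 1) + δ) * (lin (a k) (y k) - lo K (a k)) :=
        mul_le_mul_of_nonneg_left (hdw k) (by positivity)
      have h11 : (1 / ((n : ℝ) + 1) + δ) * w = w / (n + 1) + δ * w := by ring
      have h12 : 0 < δ * w := mul_pos hδ hpos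
      linarith
  refine ⟨a, y, hy, fun i j => ?_⟩
  have h1 := hS i
  rw [← Finset.add_sum_erase _ _ (Finset.mem_univ i)] at h1
  have h2 : 0 ≤ ∑ j ∈ Finset.univ.erase i, (lin (a i) (y j) - lo K (a i)) :=
    Finset.sum_nonneg fun j _ => hd0 i j
  by_cases hij : i = j
  · subst hij
    rw [if_pos rfl]
    exact le_antisymm (by linarith) (hdw i)
  · rw [if_neg hij]
    have h3 := Finset.single_le_sum (s := Finset.univ.erase i)
      (f := fun j => lin (a i) (y j) - lo K (a i)) (fun j _ => hd0 i j)
      (Finset.mem_erase.2 ⟨fun h => hij h.symm, Finset.mem_univ j⟩)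
    have h4 := hdw i
    have h5 := hd0 i j
    linarith

theorem simplex (hn : 1 ≤ n) (hK : IsBody K) (a : Fin (n + 1) → Fin n → ℤ)
    (y : Fin (n + 1) → Fin n → ℝ) (hy : ∀ i, y i ∈ K)
    (hd : ∀ i j, lin (a i) (y j) - lo K (a i) = if i = j then latWidth K else 0) :
    IsStdSimplex K (latWidth K) := by
  classical
  obtain ⟨-, hw, hpos⟩ := latWidth_spec hn hK
  set w := latWidth K with hwdef
  set A : Matrix (Fin n) (Fin n) ℤ := Matrix.of fun (i c : Fin n) => a i.succ c with hA
  set E : Matrix (Fin n) (Fin n) ℝ := Matrix.of fun (c j : Fin n) =>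
    w⁻¹ * (y j.succ c - y 0 c) with hE
  have hdiff : ∀ i j k, lin (a i) (y j) - lin (a i) (y k) =
      (if i = j then w else 0) - if i = k then w else 0 := by
    intro i j k
    have h1 := hd i j
    have h2 := hd i k
    linarith
  have hlin : ∀ (u : Fin n → ℤ) (j : Fin n), ∑ c, (u c : ℝ) * E c j =
      w⁻¹ * (lin u (y j.succ) - lin u (y 0)) := by
    intro u j
    rw [lin, lin, ← Finset.sum_sub_distrib, Finset.mul_sum]
    refine Finset.sum_congr rfl fun c _ => ?_
    rw [hE, Matrix.of_apply]
    ring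
  have hAE : A.map (fun z : ℤ => (z : ℝ)) * E = 1 := by
    ext i j
    rw [Matrix.mul_apply]
    have h1 : ∑ c, (A.map (fun z : ℤ => (z : ℝ))) i c * E c j = ∑ c, (a i.succ c : ℝ) * E c j := by
      refine Finset.sum_congr rfl fun c _ => ?_
      rw [Matrix.map_apply, hA, Matrix.of_apply]
    rw [h1, hlin, hdiff, if_neg (Fin.succ_ne_zero i), sub_zero, Matrix.one_apply]
    by_cases hij : i = j
    · rw [if_pos (by rw [hij]), if_pos hij, inv_mul_cancel₀ hpos.ne']
    · rw [if_neg (fun h => hij (Fin.succ_injective _ h)), if_neg hij, mul_zero]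
  have hEA := mul_eq_one_comm.1 hAE
  have hEA' : ∀ c e, ∑ j, E c j * (a j.succ e : ℝ) = if c = e then 1 else 0 := by
    intro c e
    have h1 := congrFun (congrFun hEA c) e
    rw [Matrix.mul_apply, Matrix.one_apply] at h1
    rw [← h1]
    refine Finset.sum_congr rfl fun j _ => ?_
    rw [Matrix.map_apply, hA, Matrix.of_apply]
  -- coordinates
  have hlo : ∀ j : Fin n, lo K (a j.succ) = lin (a j.succ) (y 0) := by
    intro j
    have h3 := hd j.succ 0
    rw [if_neg (Fin.succ_ne_zero j)] at h3
    linarith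
  have hl : ∀ (x : Fin n → ℝ) (j : Fin n), lin (a j.succ) x - lo K (a j.succ) =
      ∑ e, (a j.succ e : ℝ) * (x e - y 0 e) := by
    intro x j
    rw [hlo, lin, lin, ← Finset.sum_sub_distrib]
    exact Finset.sum_congr rfl fun e _ => by ring
  have hcoord : ∀ (x : Fin n → ℝ) (c : Fin n), x c - y 0 c =
      ∑ j, E c j * (lin (a j.succ) x - lo K (a j.succ)) := by
    intro x c
    simp only [hl, Finset.mul_sum]
    rw [Finset.sum_comm]
    have h2 : ∀ e : Fin n, ∑ j : Fin n, E c j * ((a j.succ e : ℝ) * (x e - y 0 e)) =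
        (if c = e then 1 else 0) * (x e - y 0 e) := by
      intro e
      rw [← hEA', Finset.sum_mul]
      exact Finset.sum_congr rfl fun j _ => by ring
    rw [Finset.sum_congr rfl fun e _ => h2 e]
    simp
  have hzero : ∀ x : Fin n → ℝ, lin (a 0) x - lo K (a 0) =
      w - ∑ j : Fin n, (lin (a j.succ) x - lo K (a j.succ)) := by
    intro x
    have h1 : lin (a 0) x - lin (a 0) (y 0) =
        ∑ j : Fin n, (lin (a j.succ) x - lo K (a j.succ)) * ∑ c, (a 0 c : ℝ) * E c j := by
      have h2 : lin (a 0) x - lin (a 0) (y 0) = ∑ c, (a 0 c : ℝ) * (x c - y 0 c) := by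
        rw [lin, lin, ← Finset.sum_sub_distrib]
        exact Finset.sum_congr rfl fun c _ => by ring
      rw [h2]
      simp only [hcoord x, Finset.mul_sum]
      rw [Finset.sum_comm]
      exact Finset.sum_congr rfl fun j _ => Finset.sum_congr rfl fun c _ => by ring
    have h3 : ∀ j : Fin n, ∑ c, (a 0 c : ℝ) * E c j = -1 := by
      intro j
      rw [hlin, hdiff, if_neg (Fin.succ_ne_zero j).symm, if_pos rfl, zero_sub, mul_neg,
        inv_mul_cancel₀ hpos.ne']
    simp only [h3, mul_neg, mul_one, Finset.sum_neg_distrib] at h1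
    have h4 := hd 0 0
    rw [if_pos rfl] at h4
    linarith
  have hKx : ∀ x ∈ K, (∀ j : Fin n, 0 ≤ lin (a j.succ) x - lo K (a j.succ)) ∧
      ∑ j : Fin n, (lin (a j.succ) x - lo K (a j.succ)) ≤ w := by
    intro x hx
    refine ⟨fun j => sub_nonneg.2 (lo_le hK _ hx), ?_⟩
    have h1 := hzero x
    have h2 := lo_le hK (a 0) hx
    linarith
  -- integrality of the inverse matrix
  have hint : ∀ c j, ∃ z : ℤ, E c j = z := by
    intro c j0
    by_contra hcon
    have hm0 : Int.fract (E c j0) ≠ 0 := by
      intro h0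
      apply hcon
      refine ⟨⌊E c j0⌋, ?_⟩
      have := Int.floor_add_fract (E c j0)
      rw [h0, add_zero] at this
      exact this.symm
    let u : Fin n → ℤ := fun e => (if c = e then 1 else 0) - ∑ j, ⌊E c j⌋ * a j.succ e
    have hu : ∀ e, (u e : ℝ) = ∑ j, Int.fract (E c j) * (a j.succ e : ℝ) := by
      intro e
      have h1 := hEA' c e
      have h2 : ∀ j, Int.fract (E c j) * (a j.succ e : ℝ) =
          E c j * (a j.succ e : ℝ) - (⌊E c j⌋ : ℝ) * (a j.succ e : ℝ) := by
        intro j
        rw [Int.fract]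
        ring
      rw [Finset.sum_congr rfl fun j _ => h2 j, Finset.sum_sub_distrib, h1]
      simp only [u]
      push_cast
      rfl
    have hlu : ∀ x : Fin n → ℝ, lin u x = ∑ j, Int.fract (E c j) * lin (a j.succ) x := by
      intro x
      simp only [lin, Finset.mul_sum]
      rw [Finset.sum_comm]
      refine Finset.sum_congr rfl fun e _ => ?_
      rw [hu, Finset.sum_mul]
      exact Finset.sum_congr rfl fun j _ => by ring
    have hlu' : ∀ x : Fin n → ℝ, lin u x - lin u (y 0) =
        ∑ j, Int.fract (E c j) * (lin (a j.succ) x - lo K (a j.succ)) := by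
      intro x
      rw [hlu, hlu, ← Finset.sum_sub_distrib]
      refine Finset.sum_congr rfl fun j _ => ?_
      rw [hlo]
      ring
    have hu0 : u ≠ 0 := by
      intro h0
      have h1 := hlu' (y j0.succ)
      have h2 : ∀ x : Fin n → ℝ, lin u x = 0 := by
        intro x
        rw [h0, lin]
        simp
      rw [h2, h2, sub_zero] at h1
      have h3 : ∀ i : Fin n, Int.fract (E c i) * (lin (a i.succ) (y j0.succ) - lo K (a i.succ)) =
          if i = j0 then Int.fract (E c i) * w else 0 := by
        intro i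
        rw [hd]
        by_cases hij : i = j0
        · subst hij; simp
        · rw [if_neg (fun h => hij (Fin.succ_injective _ h)), if_neg hij, mul_zero]
      rw [Finset.sum_congr rfl fun i _ => h3 i, Finset.sum_ite_eq' Finset.univ j0,
        if_pos (Finset.mem_univ _)] at h1
      rcases mul_eq_zero.1 h1.symm with h | h
      · exact hm0 h
      · exact hpos.ne' h
    obtain ⟨M, hM1, hM⟩ : ∃ M : ℝ, M < 1 ∧ ∀ j, Int.fract (E c j) ≤ M := by
      have hne : (Finset.univ : Finset (Fin n)).Nonempty := ⟨j0, Finset.mem_univ _⟩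
      refine ⟨Finset.univ.sup' hne fun j => Int.fract (E c j), ?_, fun j =>
        Finset.le_sup' (fun j => Int.fract (E c j)) (Finset.mem_univ j)⟩
      rw [Finset.sup'_lt_iff]
      exact fun j _ => Int.fract_lt_one _
    have hM0 : 0 ≤ M := (Int.fract_nonneg _).trans (hM j0)
    have hup : hi K u ≤ lin u (y 0) + M * w := by
      apply hi_le hK.nonempty
      intro x hx
      obtain ⟨h1, h2⟩ := hKx x hx
      have h3 : ∑ j, Int.fract (E c j) * (lin (a j.succ) x - lo K (a j.succ)) ≤
          M * ∑ j : Fin n, (lin (a j.succ) x - lo K (a j.succ)) := by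
        rw [Finset.mul_sum]
        exact Finset.sum_le_sum fun j _ => mul_le_mul_of_nonneg_right (hM j) (h1 j)
      have h4 := mul_le_mul_of_nonneg_left h2 hM0
      have h5 := hlu' x
      linarith
    have hdn : lin u (y 0) ≤ lo K u := by
      apply le_lo hK.nonempty
      intro x hx
      obtain ⟨h1, -⟩ := hKx x hx
      have h3 : 0 ≤ ∑ j, Int.fract (E c j) * (lin (a j.succ) x - lo K (a j.succ)) :=
        Finset.sum_nonneg fun j _ => mul_nonneg (Int.fract_nonneg _) (h1 j)
      have h5 := hlu' x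
      linarith
    have h6 := hw u hu0
    have h7 : M * w < 1 * w := mul_lt_mul_of_pos_right hM1 hpos
    linarith
  choose B hB using hint
  have hBA : (Matrix.of B) * A = 1 := by
    ext c e
    rw [Matrix.mul_apply, Matrix.one_apply]
    have h1 := hEA' c e
    simp only [hB] at h1
    have h2 : ((∑ j, (Matrix.of B) c j * A j e : ℤ) : ℝ) = ((if c = e then 1 else 0 : ℤ) : ℝ) := by
      push_cast
      simp only [Matrix.of_apply, hA]
      exact h1
    exact_mod_cast h2
  refine ⟨Matrix.of B, y 0, Matrix.isUnit_det_of_right_inverse hBA, Set.Subset.antisymm ?_ ?_⟩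
  · intro x hx
    refine ⟨fun j => lin (a j.succ) x - lo K (a j.succ), hKx x hx, ?_⟩
    funext c
    have h1 := hcoord x c
    simp only [hB] at h1
    simp only [Matrix.of_apply]
    rw [← h1]
    ring
  · rintro _ ⟨z, ⟨hz0, hz1⟩, rfl⟩
    let wt : Fin (n + 1) → ℝ := Fin.cons (1 - ∑ j, z j / w) (fun j => z j / w)
    have hmem := hK.2.1.sum_mem (t := Finset.univ) (w := wt) (z := y) ?_ ?_ (fun i _ => hy i)
    · convert hmem using 1
      funext c
      rw [Finset.sum_apply, Fin.sum_univ_succ]
      simp only [wt, Fin.cons_zero, Fin.cons_succ, Pi.smul_apply, smul_eq_mul, Matrix.of_apply]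
      have h1 : ∀ j : Fin n, z j / w * y j.succ c = z j / w * y 0 c + (B c j : ℝ) * z j := by
        intro j
        have h2 := hB c j
        rw [hE, Matrix.of_apply] at h2
        rw [← h2]
        field_simp
        ring
      rw [Finset.sum_congr rfl fun j _ => h1 j, Finset.sum_add_distrib, ← Finset.sum_mul]
      ring
    · intro i _
      refine Fin.cases ?_ (fun j => ?_) i
      · simp only [wt, Fin.cons_zero]
        rw [← Finset.sum_div, sub_nonneg, div_le_one hpos]
        exact hz1
      · simp only [wt, Fin.cons_succ]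
        exact div_nonneg (hz0 j) hpos.le
    · rw [Fin.sum_univ_succ]
      simp only [wt, Fin.cons_zero, Fin.cons_succ]
      ring

end Pool.Agent.KS6_31.FQ
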