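import Pool.Agent.KS6_31.FQ.B

/-! The product of the Fine `ℚ`-codegree and the lattice width; lattice polytopes. -/

set_option autoImplicit false

open Set Module Filter Topology

namespace Pool.Agent.KS6_31.FQ

open Pool.Agent.Results.MP_f2eb3d_co.WidthOne Pool.Agent.Y40.WC

variable {n : ℕ} {K : Set (Fin n → ℝ)}

theorem lin_neg (u : Fin n → ℤ) (x : Fin n → ℝ) : lin (-u) x = -lin u x := by
  simp [lin]

theorem fine_bound (hK : IsBody K) {s : ℝ} (hs : (fineAdjoint K s).Nonempty) (u : Fin n → ℤ)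
    (hu : u ≠ 0) : 2 * s ≤ hi K u - lo K u := by
  obtain ⟨x, hx⟩ := hs
  have h1 := hx u hu
  have h2 := hx (-u) (neg_ne_zero.2 hu)
  have h3 : -hi K u ≤ lo K (-u) := by
    apply le_lo hK.nonempty
    intro y hy
    rw [lin_neg]
    exact neg_le_neg (le_hi hK u hy)
  rw [lin_neg] at h2
  linarith

theorem std_bound (hn : 1 ≤ n) (hK : IsBody K) {r : ℝ} (h : IsStdSimplex K r) {s : ℝ}
    (hs : (fineAdjoint K s).Nonempty) : s * (n + 1) ≤ r := by
  classical
  obtain ⟨A, t, hA, hP⟩ := h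
  set B := A⁻¹ with hB
  have hBA : B * A = 1 := Matrix.nonsing_inv_mul A hA
  obtain ⟨φ, hφ⟩ : ∃ φ : (Fin n → ℝ) → (Fin n → ℝ),
      φ = fun (x : Fin n → ℝ) (i : Fin n) => (∑ j, (A i j : ℝ) * x j) + t i := ⟨_, rfl⟩
  rw [← hφ] at hP
  have hj : ∀ (j : Fin n) (y : Fin n → ℝ), lin (B j) (φ y) = y j + lin (B j) t := by
    intro j y
    have h1 : lin (B j) (φ y) = ∑ e, (∑ c, (B j c : ℝ) * (A c e : ℝ)) * y e + lin (B j) t := by
      rw [hφ, lin, lin]
      simp only [mul_add, Finset.sum_add_distrib]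
      congr 1
      simp only [Finset.sum_mul, Finset.mul_sum]
      rw [Finset.sum_comm]
      exact Finset.sum_congr rfl fun _ _ => Finset.sum_congr rfl fun _ _ => by ring
    have h2 : ∀ e, ∑ c, (B j c : ℝ) * (A c e : ℝ) = if j = e then 1 else 0 := by
      intro e
      have h3 := congrFun (congrFun hBA j) e
      rw [Matrix.mul_apply, Matrix.one_apply] at h3
      have h4 : ((∑ c, B j c * A c e : ℤ) : ℝ) = ((if j = e then 1 else 0 : ℤ) : ℝ) := by
        rw [h3]
      push_cast at h4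
      exact h4
    rw [h1]
    simp [h2]
  have hB0 : ∀ j, B j ≠ 0 := by
    intro j h0
    have h1 := congrFun (congrFun hBA j) j
    rw [Matrix.mul_apply, Matrix.one_apply_eq, h0] at h1
    simp at h1
  have hlB : ∀ j, lin (B j) t ≤ lo K (B j) := by
    intro j
    apply le_lo hK.nonempty
    intro x hx
    rw [hP] at hx
    obtain ⟨y, ⟨hy, -⟩, rfl⟩ := hx
    rw [hj]
    linarith [hy j]
  have ha0 : ∀ x : Fin n → ℝ, lin (fun c => -∑ j, B j c) x = -∑ j, lin (B j) x := by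
    intro x
    simp only [lin]
    push_cast
    rw [Finset.sum_comm, ← Finset.sum_neg_distrib]
    refine Finset.sum_congr rfl fun c _ => ?_
    rw [neg_mul, Finset.sum_mul]
  have hu0 : (fun c => -∑ j, B j c) ≠ (0 : Fin n → ℤ) := by
    intro h0
    have h1 : ∑ c, (-∑ j, B j c) * A c ⟨0, hn⟩ = -1 := by
      have h2 : ∑ c, (-∑ j, B j c) * A c ⟨0, hn⟩ = -∑ j, (B * A) j ⟨0, hn⟩ := by
        simp only [Matrix.mul_apply]
        rw [Finset.sum_comm, ← Finset.sum_neg_distrib]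
        refine Finset.sum_congr rfl fun c _ => ?_
        rw [neg_mul, Finset.sum_mul]
      rw [h2, hBA]
      simp [Matrix.one_apply]
    have h3 : ∀ c, -∑ j, B j c = 0 := fun c => congrFun h0 c
    rw [Finset.sum_congr rfl fun c _ => by rw [h3 c, zero_mul]] at h1
    simp at h1
  have hl0 : -r - ∑ j, lin (B j) t ≤ lo K (fun c => -∑ j, B j c) := by
    apply le_lo hK.nonempty
    intro x hx
    rw [hP] at hx
    obtain ⟨y, ⟨-, hy⟩, rfl⟩ := hx
    rw [ha0]
    simp only [hj, Finset.sum_add_distrib]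
    linarith
  obtain ⟨x, hx⟩ := hs
  have h1 := hx _ hu0
  rw [ha0] at h1
  have h2 : ∑ _j : Fin n, s ≤ ∑ j, (lin (B j) x - lin (B j) t) :=
    Finset.sum_le_sum fun j _ => by
      have h3 := hx _ (hB0 j)
      linarith [hlB j]
  rw [Finset.sum_const, Finset.card_univ, Fintype.card_fin, nsmul_eq_mul,
    Finset.sum_sub_distrib] at h2
  linarith

theorem body (hn : 1 ≤ n) (hK : IsBody K) :
    0 < fineCodeg K ∧ fineCodeg K * latWidth K ≤ n + 1 ∧
      (fineCodeg K * latWidth K = n + 1 ↔ IsStdSimplex K (latWidth K)) := by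
  obtain ⟨⟨u0, hu0, hu0'⟩, hw, hpos⟩ := latWidth_spec hn hK
  set w := latWidth K with hwdef
  have hn1 : (0 : ℝ) < (n : ℝ) + 1 := by positivity
  set S := {s : ℝ | 0 < s ∧ (fineAdjoint K s).Nonempty} with hS
  have hbdd : BddAbove S := by
    refine ⟨(hi K u0 - lo K u0) / 2, fun s hs => ?_⟩
    have := fine_bound hK hs.2 u0 hu0
    linarith
  have hmem : w / (n + 1) ∈ S := ⟨by positivity, fine_nonempty hn hK⟩
  have hge : w / (n + 1) ≤ sSup S := le_csSup hbdd hmem
  have hsup0 : 0 < sSup S := lt_of_lt_of_le (by positivity) hge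
  have hfc : fineCodeg K = (sSup S)⁻¹ := rfl
  refine ⟨by rw [hfc]; positivity, ?_, ?_, ?_⟩
  · rw [hfc, inv_mul_le_iff₀ hsup0]
    rw [div_le_iff₀ hn1] at hge
    exact hge
  · intro heq
    have h1 : sSup S = w / (n + 1) := by
      rw [hfc, inv_mul_eq_iff_eq_mul₀ hsup0.ne'] at heq
      rw [heq, mul_div_cancel_right₀ _ hn1.ne']
    by_contra hcon
    obtain ⟨s, hs, hne⟩ := gap hn hK (fun T hT => by
      obtain ⟨a, y, hy, hd⟩ := bad_spec hn hK hT
      exact hcon (simplex hn hK a y hy hd))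
    have h2 : s ∈ S := ⟨lt_of_lt_of_le (by positivity) hs.le, hne⟩
    have h3 := le_csSup hbdd h2
    rw [h1] at h3
    exact absurd hs (not_lt.2 h3)
  · intro hstd
    have h1 : sSup S = w / (n + 1) := by
      apply le_antisymm _ hge
      apply csSup_le ⟨_, hmem⟩
      intro s hs
      rw [le_div_iff₀ hn1]
      exact std_bound hn hK hstd hs.2
    rw [hfc, h1, inv_div, div_mul_cancel₀ _ hpos.ne']

/-! ### lattice polytopes -/

theorem body_of {P : Set (Fin n → ℝ)} (hP : IsLatticePolytope P) : IsBody P := by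
  obtain ⟨⟨V, hVfin, hVint, hPV⟩, hint⟩ := hP
  exact ⟨by rw [hPV]; exact hVfin.isCompact_convexHull (𝕜 := ℝ),
    by rw [hPV]; exact convex_convexHull ℝ _, hint⟩

theorem hi_eq {l : Fin n → ℤ} {M : ℝ} (h : IsGreatest (lin l '' K) M) :
    hi K l = M := h.csSup_eq

theorem lo_eq {l : Fin n → ℤ} {M : ℝ} (h : IsLeast (lin l '' K) M) :
    lo K l = M := h.csInf_eq

theorem lattice (hn : 1 ≤ n) {P : Set (Fin n → ℝ)} (hP : IsLatticePolytope P) :
    ∃ w : ℕ, 1 ≤ w ∧ latWidth P = w ∧ IsWidth P w := by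
  have hK := body_of hP
  obtain ⟨⟨V, hVfin, hVint, hPV⟩, hint⟩ := hP
  have hVne : V.Nonempty := by
    rcases V.eq_empty_or_nonempty with rfl | h
    · rw [convexHull_empty] at hPV
      rw [hPV, interior_empty] at hint
      exact absurd hint Set.not_nonempty_empty
    · exact h
  obtain ⟨⟨u0, hu0, hu0'⟩, hw, hpos⟩ := latWidth_spec hn hK
  obtain ⟨k, hk, -⟩ := length_of hVfin hVne hVint hPV u0 hu0
  have hlen : ∀ u : Fin n → ℤ, u ≠ 0 → ∃ k : ℕ, IsLength P k ∧ hi P u - lo P u = k := by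
    intro u hu
    obtain ⟨k, hk, v1, hv1, v2, hv2, h12, hb⟩ := length_of hVfin hVne hVint hPV u hu
    have hVP : ∀ v ∈ V, v ∈ P := fun v hv => by rw [hPV]; exact subset_convexHull ℝ _ hv
    refine ⟨k, hk, ?_⟩
    rw [← h12, hi_eq (M := lin u v1) ⟨⟨v1, hVP _ hv1, rfl⟩, by
      rintro _ ⟨x, hx, rfl⟩; exact (hb x hx).2⟩, lo_eq (M := lin u v2) ⟨⟨v2, hVP _ hv2, rfl⟩, by
      rintro _ ⟨x, hx, rfl⟩; exact (hb x hx).1⟩]
  obtain ⟨w, hwl, hw'⟩ := hlen u0 hu0
  refine ⟨w, length_pos hint hwl, by rw [← hu0', hw'], hwl, ?_⟩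
  rintro k ⟨l, hl, M, m, hM, hm, hMm⟩
  have h1 := hw l hl
  rw [hi_eq hM, lo_eq hm, hMm, ← hu0', hw'] at h1
  exact_mod_cast h1

theorem std_of_dilated {P : Set (Fin n → ℝ)} {k : ℕ} (h : IsDilatedSimplex P k) :
    IsStdSimplex P k := by
  obtain ⟨A, t, hA, h⟩ := h
  exact ⟨A, fun i => t i, hA, h⟩

theorem dilated_of_std {P : Set (Fin n → ℝ)} (hP : IsLatticePolytope P) {k : ℕ}
    (h : IsStdSimplex P k) : IsDilatedSimplex P k := by
  classical
  have hK := body_of hP
  obtain ⟨⟨V, hVfin, hVint, hPV⟩, hint⟩ := hP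
  have hVne : V.Nonempty := by
    rcases V.eq_empty_or_nonempty with rfl | h
    · rw [convexHull_empty] at hPV
      rw [hPV, interior_empty] at hint
      exact absurd hint Set.not_nonempty_empty
    · exact h
  obtain ⟨A, t, hA, hPA⟩ := h
  set B := A⁻¹ with hB
  have hBA : B * A = 1 := Matrix.nonsing_inv_mul A hA
  have hAB : A * B = 1 := Matrix.mul_nonsing_inv A hA
  obtain ⟨φ, hφ⟩ : ∃ φ : (Fin n → ℝ) → (Fin n → ℝ),
      φ = fun (x : Fin n → ℝ) (i : Fin n) => (∑ j, (A i j : ℝ) * x j) + t i := ⟨_, rfl⟩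
  have hPA' := hPA
  rw [← hφ] at hPA'
  have hj : ∀ (j : Fin n) (y : Fin n → ℝ), lin (B j) (φ y) = y j + lin (B j) t := by
    intro j y
    have h1 : lin (B j) (φ y) = ∑ e, (∑ c, (B j c : ℝ) * (A c e : ℝ)) * y e + lin (B j) t := by
      rw [hφ, lin, lin]
      simp only [mul_add, Finset.sum_add_distrib]
      congr 1
      simp only [Finset.sum_mul, Finset.mul_sum]
      rw [Finset.sum_comm]
      exact Finset.sum_congr rfl fun _ _ => Finset.sum_congr rfl fun _ _ => by ring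
    have h2 : ∀ e, ∑ c, (B j c : ℝ) * (A c e : ℝ) = if j = e then 1 else 0 := by
      intro e
      have h3 := congrFun (congrFun hBA j) e
      rw [Matrix.mul_apply, Matrix.one_apply] at h3
      have h4 : ((∑ c, B j c * A c e : ℤ) : ℝ) = ((if j = e then 1 else 0 : ℤ) : ℝ) := by
        rw [h3]
      push_cast at h4
      exact h4
    rw [h1]
    simp [h2]
  have hB0 : ∀ j, B j ≠ 0 := by
    intro j h0
    have h1 := congrFun (congrFun hBA j) j
    rw [Matrix.mul_apply, Matrix.one_apply_eq, h0] at h1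
    simp at h1
  have h0P : φ 0 ∈ P := by
    rw [hPA']
    exact ⟨0, ⟨fun _ => le_rfl, by simp⟩, rfl⟩
  have hint' : ∀ j, ∃ z : ℤ, lin (B j) t = z := by
    intro j
    obtain ⟨-, -, v1, -, v2, hv2, -, hb⟩ := length_of hVfin hVne hVint hPV (B j) (hB0 j)
    have hv2P : v2 ∈ P := by rw [hPV]; exact subset_convexHull ℝ _ hv2
    have h1 := (hb _ h0P).1
    rw [hj, Pi.zero_apply, zero_add] at h1
    have h2 : lin (B j) t ≤ lin (B j) v2 := by
      rw [hPA'] at hv2P
      obtain ⟨y, ⟨hy, -⟩, hyv⟩ := hv2P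
      rw [← hyv, hj]
      linarith [hy j]
    have h3 : lin (B j) t = lin (B j) v2 := le_antisymm h2 h1
    choose z hz using hVint v2 hv2
    refine ⟨∑ i, B j i * z i, ?_⟩
    rw [h3, lin]
    push_cast
    exact Finset.sum_congr rfl fun i _ => by rw [hz]
  choose z hz using hint'
  have ht : ∀ i, t i = ((∑ j, A i j * z j : ℤ) : ℝ) := by
    intro i
    push_cast
    simp only [← hz, lin, Finset.mul_sum]
    rw [Finset.sum_comm]
    have h2 : ∀ e, ∑ j, (A i j : ℝ) * (B j e : ℝ) = if i = e then 1 else 0 := by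
      intro e
      have h3 := congrFun (congrFun hAB i) e
      rw [Matrix.mul_apply, Matrix.one_apply] at h3
      have h4 : ((∑ c, A i c * B c e : ℤ) : ℝ) = ((if i = e then 1 else 0 : ℤ) : ℝ) := by
        rw [h3]
      push_cast at h4
      exact h4
    have h5 : ∀ e, ∑ j, (A i j : ℝ) * ((B j e : ℝ) * t e) = (if i = e then 1 else 0) * t e := by
      intro e
      rw [← h2, Finset.sum_mul]
      exact Finset.sum_congr rfl fun _ _ => by ring
    rw [Finset.sum_congr rfl fun e _ => h5 e]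
    simp
  refine ⟨A, fun i => ∑ j, A i j * z j, hA, ?_⟩
  rw [hPA]
  congr 1
  funext x i
  rw [ht]

theorem qcodeg_le (hn : 1 ≤ n) {P : Set (Fin n → ℝ)} (hP : IsLatticePolytope P) :
    qcodeg P ≤ fineCodeg P := by
  have hK := body_of hP
  obtain ⟨-, -, hpos⟩ := latWidth_spec hn hK
  have hn1 : (0 : ℝ) < (n : ℝ) + 1 := by positivity
  have hsub : {s : ℝ | 0 < s ∧ (fineAdjoint P s).Nonempty} ⊆
      {s : ℝ | 0 < s ∧ (adjoint P s).Nonempty} := by
    rintro s ⟨hs, x, hx⟩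
    refine ⟨hs, x, fun a b hab => ?_⟩
    have h1 := hx a (facet_ne_zero hab)
    have h2 : (b : ℝ) ≤ lo P a := le_lo hK.nonempty hab.2.1
    linarith
  have hmem : latWidth P / (n + 1) ∈ {s : ℝ | 0 < s ∧ (fineAdjoint P s).Nonempty} :=
    ⟨by positivity, fine_nonempty hn hK⟩
  by_cases hb : BddAbove {s : ℝ | 0 < s ∧ (adjoint P s).Nonempty}
  · have h1 := csSup_le_csSup hb ⟨_, hmem⟩ hsub
    have h2 := le_csSup (hb.mono hsub) hmem
    exact inv_anti₀ (lt_of_lt_of_le hmem.1 h2) h1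
  · rw [qcodeg, Real.sSup_of_not_bddAbove hb, inv_zero]
    exact (body hn hK).1.le

end Pool.Agent.KS6_31.FQ
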