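import Pool.Agent.KS6_31.FQ.C

/-! A positively dependent circuit of functionals behind every empty Fine adjoint. -/

set_option autoImplicit false

open Set Module Filter Topology

namespace Pool.Agent.KS6_31.FQ

open Pool.Agent.Results.MP_f2eb3d_co.WidthOne Pool.Agent.Y40.WC

variable {n : ℕ} {K : Set (Fin n → ℝ)}

theorem lin_single_left (i : Fin n) (x : Fin n → ℝ) : lin (Pi.single i (1 : ℤ)) x = x i := by
  simp [lin, Pi.single_apply]

theorem circuit (hn : 1 ≤ n) (hK : IsBody K) {t : ℝ} (ht : ¬ (fineAdjoint K t).Nonempty) :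
    ∃ (ι : Type) (_ : Fintype ι) (u : ι → Fin n → ℤ) (w : ι → ℝ) (s : ℝ),
      (∀ i, u i ≠ 0) ∧ AffineIndependent ℝ (fun i => (fun c => (u i c : ℝ) : Fin n → ℝ)) ∧
      (∀ i, 0 < w i) ∧ ∑ i, w i = 1 ∧
      ∑ i, w i • (fun c => (u i c : ℝ) : Fin n → ℝ) = 0 ∧ 0 < s ∧ s < t ∧
      ∀ x, ∑ i, w i * (lin (u i) x - lo K (u i)) = s := by
  classical
  obtain ⟨-, -, hpos⟩ := latWidth_spec hn hK
  have hn1 : (0 : ℝ) < (n : ℝ) + 1 := by positivity
  let E : Fin n → Fin n → ℤ := fun i => Pi.single i 1
  have hE0 : ∀ i, E i ≠ 0 := by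
    intro i h
    have := congrFun h i
    simp [E] at this
  -- a finite infeasible subfamily
  obtain ⟨T, hT0, hTE, hTE', hT⟩ : ∃ T : Finset (Fin n → ℤ), (∀ u ∈ T, u ≠ 0) ∧
      (∀ i, E i ∈ T) ∧ (∀ i, -E i ∈ T) ∧ ∀ x, ∃ u ∈ T, lin u x - lo K u < t := by
    have hcomp : IsCompact (Icc (fun i => t + lo K (E i)) (fun i => -(t + lo K (-E i)))) :=
      isCompact_Icc
    obtain ⟨I, hI⟩ := hcomp.elim_finite_subfamily_closed
      (fun p : {u : Fin n → ℤ // u ≠ 0} => {x | t + lo K p.1 ≤ lin p.1 x})
      (fun p => isClosed_le continuous_const (continuous_lin _)) (by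
        rw [Set.eq_empty_iff_forall_notMem]
        rintro x ⟨-, hx⟩
        rw [Set.mem_iInter] at hx
        apply ht
        refine ⟨x, fun u hu => ?_⟩
        have : t + lo K u ≤ lin u x := hx ⟨u, hu⟩
        linarith)
    refine ⟨I.image Subtype.val ∪ (Finset.univ.image E ∪ Finset.univ.image fun i => -E i),
      ?_, ?_, ?_, ?_⟩
    · intro u hu
      rw [Finset.mem_union, Finset.mem_union, Finset.mem_image, Finset.mem_image,
        Finset.mem_image] at hu
      rcases hu with ⟨p, -, rfl⟩ | ⟨i, -, rfl⟩ | ⟨i, -, rfl⟩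
      · exact p.2
      · exact hE0 i
      · exact neg_ne_zero.2 (hE0 i)
    · intro i
      exact Finset.mem_union_right _ (Finset.mem_union_left _
        (Finset.mem_image_of_mem _ (Finset.mem_univ i)))
    · intro i
      exact Finset.mem_union_right _ (Finset.mem_union_right _
        (Finset.mem_image_of_mem (fun i => -E i) (Finset.mem_univ i)))
    · intro x
      by_contra hcon
      push Not at hcon
      rw [Set.eq_empty_iff_forall_notMem] at hI
      apply hI x
      refine ⟨⟨fun i => ?_, fun i => ?_⟩, ?_⟩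
      · have := hcon (E i) (Finset.mem_union_right _ (Finset.mem_union_left _
          (Finset.mem_image_of_mem _ (Finset.mem_univ i))))
        rw [show lin (E i) x = x i from lin_single_left i x] at this
        show t + lo K (E i) ≤ x i
        linarith
      · have := hcon (-E i) (Finset.mem_union_right _ (Finset.mem_union_right _
          (Finset.mem_image_of_mem (fun i => -E i) (Finset.mem_univ i))))
        rw [lin_neg, show lin (E i) x = x i from lin_single_left i x] at this
        show x i ≤ -(t + lo K (-E i))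
        linarith
      · rw [Set.mem_iInter₂]
        intro p hp
        have := hcon p.1 (Finset.mem_union_left _ (Finset.mem_image_of_mem _ hp))
        show t + lo K p.1 ≤ lin p.1 x
        linarith
  have hTne : T.Nonempty := ⟨_, hTE ⟨0, hn⟩⟩
  -- the maximum of the least distance
  obtain ⟨f, hf⟩ : ∃ f : (Fin n → ℝ) → ℝ,
      f = fun x => T.inf' hTne (fun u => lin u x - lo K u) := ⟨_, rfl⟩
  have hfc : Continuous f := by
    rw [hf]
    exact Continuous.finset_inf'_apply hTne fun u _ => (continuous_lin u).sub continuous_const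
  have hfle : ∀ x, ∀ u ∈ T, f x ≤ lin u x - lo K u := by
    intro x u hu
    rw [hf]
    exact Finset.inf'_le _ hu
  have hC : IsCompact {x | 0 ≤ f x} := by
    apply (isCompact_Icc (a := fun i => lo K (E i)) (b := fun i => -lo K (-E i))).of_isClosed_subset
      (isClosed_le continuous_const hfc)
    intro x hx
    have hx' : 0 ≤ f x := hx
    refine ⟨fun i => ?_, fun i => ?_⟩
    · have := hfle x _ (hTE i)
      rw [show lin (E i) x = x i from lin_single_left i x] at this
      show lo K (E i) ≤ x i
      linarith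
    · have := hfle x _ (hTE' i)
      rw [lin_neg, show lin (E i) x = x i from lin_single_left i x] at this
      show x i ≤ -lo K (-E i)
      linarith
  obtain ⟨x0, hx0⟩ := fine_nonempty hn hK
  have hfx0 : latWidth K / (n + 1) ≤ f x0 := by
    rw [hf]
    exact Finset.le_inf' _ _ fun u hu => hx0 u (hT0 u hu)
  have hq : 0 < latWidth K / (n + 1) := by positivity
  obtain ⟨p, hp, hmax⟩ := hC.exists_isMaxOn ⟨x0, (hq.le.trans hfx0 : 0 ≤ f x0)⟩ hfc.continuousOn
  have hglob : ∀ x, f x ≤ f p := by
    intro x
    rcases le_or_gt 0 (f x) with h | h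
    · exact hmax h
    · exact h.le.trans hp
  obtain ⟨s, hs⟩ : ∃ s, s = f p := ⟨_, rfl⟩
  have hs0 : 0 < s := by
    rw [hs]
    exact lt_of_lt_of_le hq (hfx0.trans (hglob x0))
  have hst : s < t := by
    obtain ⟨u, hu, hu'⟩ := hT p
    rw [hs]
    exact lt_of_le_of_lt (hfle p u hu) hu'
  -- the active functionals contain `0` in their convex hull
  let cst : (Fin n → ℤ) → Fin n → ℝ := fun u c => (u c : ℝ)
  have h0 : (0 : Fin n → ℝ) ∈ convexHull ℝ (cst '' {u | u ∈ T ∧ lin u p - lo K u = s}) := by
    by_contra hnot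
    have hfin : (cst '' {u | u ∈ T ∧ lin u p - lo K u = s}).Finite :=
      (T.finite_toSet.subset fun u hu => hu.1).image _
    obtain ⟨g, r, hg0, hg⟩ := geometric_hahn_banach_point_closed (convex_convexHull ℝ _)
      (hfin.isCompact_convexHull (𝕜 := ℝ)).isClosed hnot
    rw [map_zero] at hg0
    let d : Fin n → ℝ := fun i => g (Pi.single i 1)
    have hgd : ∀ u, g (cst u) = lin u d := by
      intro u
      have h1 : cst u = ∑ i, (u i : ℝ) • (Pi.single i (1 : ℝ) : Fin n → ℝ) := by
        funext c
        simp [cst, Finset.sum_apply, Pi.single_apply]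
      rw [h1, map_sum, lin]
      refine Finset.sum_congr rfl fun i _ => ?_
      rw [map_smul, smul_eq_mul]
    have hev : ∀ᶠ e : ℝ in 𝓝[>] 0, ∀ u ∈ T, s < lin u (p + e • d) - lo K u := by
      rw [Filter.eventually_all_finset]
      intro u hu
      by_cases hact : lin u p - lo K u = s
      · have h1 : 0 < lin u d := by
          rw [← hgd]
          exact hg0.trans (hg _ (subset_convexHull ℝ _ ⟨u, ⟨hu, hact⟩, rfl⟩))
        filter_upwards [self_mem_nhdsWithin] with e he
        have he' : 0 < e := he
        rw [lin_add, lin_smul]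
        have := mul_pos he' h1
        linarith
      · have h1 : s < lin u p - lo K u := by
          have h2 := hfle p u hu
          rw [← hs] at h2
          exact lt_of_le_of_ne h2 (fun h => hact h.symm)
        have hc : Continuous fun e : ℝ => lin u (p + e • d) - lo K u := by
          have := continuous_lin u
          fun_prop
        have h2 : ∀ᶠ e : ℝ in 𝓝 0, s < lin u (p + e • d) - lo K u := by
          apply (hc.tendsto 0).eventually
          apply lt_mem_nhds
          rw [zero_smul, add_zero]
          exact h1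
        exact h2.filter_mono nhdsWithin_le_nhds
    obtain ⟨e, he⟩ := hev.exists
    have h3 : s < f (p + e • d) := by
      rw [hf]
      exact (Finset.lt_inf'_iff _).2 he
    have h4 := hglob (p + e • d)
    rw [← hs] at h4
    exact absurd h3 (not_lt.2 h4)
  obtain ⟨ι, hι, z, w, hz, haff, hw0, hw1, hsum⟩ := eq_pos_convex_span_of_mem_convexHull h0
  have hz' : ∀ i, ∃ u, (u ∈ T ∧ lin u p - lo K u = s) ∧ cst u = z i := fun i => hz ⟨i, rfl⟩
  choose u hu huz using hz'
  have hzu : z = fun i => cst (u i) := funext fun i => (huz i).symm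
  have hlin : ∀ x, ∑ i, w i * lin (u i) x = 0 := by
    intro x
    simp only [lin, Finset.mul_sum]
    rw [Finset.sum_comm]
    apply Finset.sum_eq_zero
    intro c _
    have h1 := congrFun hsum c
    rw [Finset.sum_apply, Pi.zero_apply] at h1
    have h2 : ∑ i, w i * ((u i c : ℝ) * x c) = (∑ i, (w i • z i) c) * x c := by
      rw [Finset.sum_mul]
      refine Finset.sum_congr rfl fun i _ => ?_
      rw [← huz i, Pi.smul_apply, smul_eq_mul]
      ring
    rw [h2, h1, zero_mul]
  have hconst : ∀ x, ∑ i, w i * (lin (u i) x - lo K (u i)) = -∑ i, w i * lo K (u i) := by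
    intro x
    simp only [mul_sub, Finset.sum_sub_distrib]
    rw [hlin x, zero_sub]
  refine ⟨ι, hι, u, w, s, fun i => hT0 _ (hu i).1, ?_, hw0, hw1, ?_, hs0, hst, fun x => ?_⟩
  · rw [hzu] at haff
    exact haff
  · rw [hzu] at hsum
    exact hsum
  · rw [hconst x, ← hconst p]
    have h1 : ∀ i ∈ Finset.univ, w i * (lin (u i) p - lo K (u i)) = w i * s := by
      intro i _
      rw [(hu i).2]
    rw [Finset.sum_congr rfl h1, ← Finset.sum_mul, hw1, one_mul]

end Pool.Agent.KS6_31.FQ
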