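import Pool.Agent.KS6_31.FQ.D

/-! Lattice polytopes of large Fine `ℚ`-codegree are Cayley polytopes. -/

set_option autoImplicit false

open Set Module Filter Topology

namespace Pool.Agent.KS6_31.FQ

open Pool.Agent.Results.MP_f2eb3d_co.WidthOne Pool.Agent.Y40.WC

/-- `P` is a Cayley polytope of `j + 1` nonempty lattice polytopes: some integer affine map
`x ↦ (⟨l_i, x⟩ - c_i)_i` to `ℝ^j` sends `P` onto the unimodular simplex
`{y | y_i ≥ 0, ∑ y_i ≤ 1}`, each of whose `j + 1` vertices is the image of an integer point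
of `P`. -/
def IsCayley {n : ℕ} (P : Set (Fin n → ℝ)) (j : ℕ) : Prop :=
  ∃ (l : Fin j → Fin n → ℤ) (c : Fin j → ℤ),
    (∀ x ∈ P, (∀ i, 0 ≤ lin (l i) x - c i) ∧ ∑ i, (lin (l i) x - c i) ≤ 1) ∧
    (∃ v ∈ P, (∀ i, ∃ z : ℤ, v i = z) ∧ ∀ i, lin (l i) v - c i = 0) ∧
    ∀ k, ∃ v ∈ P, (∀ i, ∃ z : ℤ, v i = z) ∧ ∀ i, lin (l i) v - c i = if i = k then 1 else 0

variable {n : ℕ}

theorem codeg_le_of (hn : 1 ≤ n) {K : Set (Fin n → ℝ)} (hK : IsBody K) {t : ℝ} (ht : 0 < t)
    (hne : (fineAdjoint K t).Nonempty) : fineCodeg K ≤ t⁻¹ := by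
  obtain ⟨⟨u0, hu0, -⟩, -, -⟩ := latWidth_spec hn hK
  have hbdd : BddAbove {s : ℝ | 0 < s ∧ (fineAdjoint K s).Nonempty} := by
    refine ⟨(hi K u0 - lo K u0) / 2, fun s hs => ?_⟩
    have := fine_bound hK hs.2 u0 hu0
    linarith
  exact inv_anti₀ ht (le_csSup hbdd ⟨ht, hne⟩)

theorem cayley (hn : 1 ≤ n) {P : Set (Fin n → ℝ)} (hP : IsLatticePolytope P) {j : ℕ}
    (hj1 : 1 ≤ j) (hj : j ≤ n) (hμ : ((n : ℝ) + j) / 2 < fineCodeg P) : IsCayley P j := by
  classical
  have hK := body_of hP
  obtain ⟨-, hwid, hwpos⟩ := latWidth_spec hn hK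
  obtain ⟨⟨V, hVfin, hVint, hPV⟩, hint⟩ := hP
  have hVne : V.Nonempty := by
    rcases V.eq_empty_or_nonempty with rfl | h
    · rw [convexHull_empty] at hPV
      rw [hPV, interior_empty] at hint
      exact absurd hint Set.not_nonempty_empty
    · exact h
  have hVP : ∀ v ∈ V, v ∈ P := fun v hv => by rw [hPV]; exact subset_convexHull ℝ _ hv
  have hj0 : (0 : ℝ) < j := by exact_mod_cast hj1
  have hnj : (0 : ℝ) < (n : ℝ) + j := by positivity
  have hjn : (j : ℝ) ≤ n := by exact_mod_cast hj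
  have ht : ¬ (fineAdjoint P (2 / ((n : ℝ) + j))).Nonempty := by
    intro hne
    have := codeg_le_of hn hK (by positivity) hne
    rw [inv_div] at this
    linarith
  obtain ⟨ι, hι, u, w, s, hu0, haff, hw0, hw1, hwz, hs0, hst, hsum⟩ := circuit hn hK ht
  have hst' : s * (n + j) < 2 := by rwa [lt_div_iff₀ hnj] at hst
  -- extreme vertices
  have hext : ∀ i, ∃ k : ℕ, 1 ≤ k ∧ ∃ b : ℤ, lo P (u i) = b ∧
      ∃ v ∈ V, lin (u i) v - lo P (u i) = k := by
    intro i
    obtain ⟨k, hk, v1, hv1, v2, hv2, h12, hb⟩ := length_of hVfin hVne hVint hPV (u i) (hu0 i)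
    have hlo : lo P (u i) = lin (u i) v2 := lo_eq ⟨⟨v2, hVP _ hv2, rfl⟩, by
      rintro _ ⟨x, hx, rfl⟩; exact (hb x hx).1⟩
    choose z hz using hVint v2 hv2
    refine ⟨k, length_pos hint hk, ∑ c, u i c * z c, ?_, v1, hv1, by rw [hlo, h12]⟩
    rw [hlo, lin]
    push_cast
    exact Finset.sum_congr rfl fun c _ => by rw [hz]
  choose k hk1 b hb v hvV hv using hext
  have hdint : ∀ i, ∀ y ∈ V, ∃ m : ℕ, lin (u i) y - lo P (u i) = m := by
    intro i y hy
    choose z hz using hVint y hy
    have h1 : lin (u i) y - lo P (u i) = ((∑ c, u i c * z c - b i : ℤ) : ℝ) := by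
      rw [hb, lin]
      push_cast
      congr 1
      exact Finset.sum_congr rfl fun c _ => by rw [hz]
    have h2 : 0 ≤ lin (u i) y - lo P (u i) := sub_nonneg.2 (lo_le hK _ (hVP y hy))
    rw [h1] at h2
    have h3 : 0 ≤ ∑ c, u i c * z c - b i := by exact_mod_cast h2
    refine ⟨(∑ c, u i c * z c - b i).toNat, ?_⟩
    rw [h1]
    have h4 := Int.toNat_of_nonneg h3
    exact_mod_cast h4.symm
  have hterm : ∀ y ∈ P, ∀ i, 0 ≤ w i * (lin (u i) y - lo P (u i)) := fun y hy i =>
    mul_nonneg (hw0 i).le (sub_nonneg.2 (lo_le hK _ hy))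
  have hone : ∀ y ∈ P, ∀ i, w i * (lin (u i) y - lo P (u i)) ≤ s := by
    intro y hy i
    rw [← hsum y]
    exact Finset.single_le_sum (f := fun i => w i * (lin (u i) y - lo P (u i)))
      (fun i _ => hterm y hy i) (Finset.mem_univ i)
  have htwo : ∀ y ∈ P, ∀ i i', i ≠ i' → w i * (lin (u i) y - lo P (u i)) +
      w i' * (lin (u i') y - lo P (u i')) ≤ s := by
    intro y hy i i' hii
    rw [← hsum y, ← Finset.add_sum_erase _ _ (Finset.mem_univ i)]
    have := Finset.single_le_sum (s := Finset.univ.erase i)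
      (f := fun i => w i * (lin (u i) y - lo P (u i)))
      (fun i _ => hterm y hy i) (Finset.mem_erase.2 ⟨hii.symm, Finset.mem_univ i'⟩)
    linarith
  have hws : ∀ i, w i ≤ s := by
    intro i
    have h1 := hone _ (hVP _ (hvV i)) i
    rw [hv i] at h1
    have h2 : (1 : ℝ) ≤ k i := by exact_mod_cast hk1 i
    have h3 := mul_le_mul_of_nonneg_left h2 (hw0 i).le
    linarith
  -- many large weights
  have hcard : j ≤ (Finset.univ.filter fun i => s / 2 < w i).card := by
    have hm : Fintype.card ι ≤ n + 1 := by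
      have h1 := haff.card_le_finrank_succ
      have h2 : finrank ℝ (vectorSpan ℝ (Set.range fun i => (fun c => (u i c : ℝ) : Fin n → ℝ))) ≤
          n := by
        have := Submodule.finrank_le
          (vectorSpan ℝ (Set.range fun i => (fun c => (u i c : ℝ) : Fin n → ℝ)))
        rwa [finrank_fintype_fun_eq_card, Fintype.card_fin] at this
      omega
    have h1 : (1 : ℝ) ≤ ∑ i, (s / 2 + if s / 2 < w i then s / 2 else 0) := by
      rw [← hw1]
      refine Finset.sum_le_sum fun i _ => ?_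
      split_ifs with h
      · linarith [hws i]
      · linarith [not_lt.1 h]
    rw [Finset.sum_add_distrib, Finset.sum_const, Finset.card_univ, nsmul_eq_mul,
      ← Finset.sum_filter, Finset.sum_const, nsmul_eq_mul] at h1
    have h2 : (Fintype.card ι : ℝ) ≤ n + 1 := by exact_mod_cast hm
    have h3 := mul_le_mul_of_nonneg_right h2 (by positivity : (0 : ℝ) ≤ s / 2)
    have h4 : s * ((n : ℝ) + j) <
        s * ((n : ℝ) + 1 + ((Finset.univ.filter fun i => s / 2 < w i).card : ℝ)) := by
      linarith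
    have h5 := lt_of_mul_lt_mul_left h4 hs0.le
    have h6 : (j : ℝ) < ((Finset.univ.filter fun i => s / 2 < w i).card : ℝ) + 1 := by linarith
    have h7 : j < (Finset.univ.filter fun i => s / 2 < w i).card + 1 := by exact_mod_cast h6
    omega
  obtain ⟨q, hq⟩ : ∃ q : Fin j ↪ ι, ∀ i, s / 2 < w (q i) := by
    obtain ⟨J, hJ, hJc⟩ := Finset.exists_subset_card_eq hcard
    refine ⟨(J.equivFinOfCardEq hJc).symm.toEmbedding.trans (Function.Embedding.subtype _),
      fun i => ?_⟩
    exact (Finset.mem_filter.1 (hJ ((J.equivFinOfCardEq hJc).symm i).2)).2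
  -- values at the vertices
  have hval : ∀ y ∈ V, ∀ i, lin (u (q i)) y - lo P (u (q i)) ≠ 0 →
      lin (u (q i)) y - lo P (u (q i)) = 1 ∧
      ∀ i', i' ≠ i → lin (u (q i')) y - lo P (u (q i')) = 0 := by
    intro y hy i hne
    obtain ⟨m, hm⟩ := hdint (q i) y hy
    have hm0 : m ≠ 0 := by
      rintro rfl
      exact hne (by rw [hm, Nat.cast_zero])
    have hm1 : (1 : ℝ) ≤ m := by exact_mod_cast Nat.one_le_iff_ne_zero.2 hm0
    constructor
    · have h1 := hone y (hVP y hy) (q i)
      rw [hm] at h1 ⊢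
      by_contra hcon
      have h2 : 2 ≤ m := by
        rcases Nat.lt_or_ge m 2 with h | h
        · exfalso
          apply hcon
          have : m = 1 := by omega
          rw [this, Nat.cast_one]
        · exact h
      have h3 : (2 : ℝ) ≤ m := by exact_mod_cast h2
      have h4 := mul_le_mul_of_nonneg_left h3 (hw0 (q i)).le
      linarith [hq i]
    · intro i' hii
      obtain ⟨m', hm'⟩ := hdint (q i') y hy
      rw [hm']
      by_contra hcon
      have h2 : m' ≠ 0 := by
        rintro rfl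
        exact hcon Nat.cast_zero
      have h3 : (1 : ℝ) ≤ m' := by exact_mod_cast Nat.one_le_iff_ne_zero.2 h2
      have h4 := htwo y (hVP y hy) (q i) (q i') (fun h => hii (q.injective h.symm))
      rw [hm, hm'] at h4
      have h5 := mul_le_mul_of_nonneg_left hm1 (hw0 (q i)).le
      have h6 := mul_le_mul_of_nonneg_left h3 (hw0 (q i')).le
      linarith [hq i, hq i']
  have hsumV : ∀ y ∈ V, (∀ i, lin (u (q i)) y - lo P (u (q i)) = 0) ∨
      ∑ i, (lin (u (q i)) y - lo P (u (q i))) = 1 := by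
    intro y hy
    by_cases h : ∀ i, lin (u (q i)) y - lo P (u (q i)) = 0
    · exact Or.inl h
    · right
      push Not at h
      obtain ⟨i, hi'⟩ := h
      obtain ⟨h1, h2⟩ := hval y hy i hi'
      rw [← Finset.add_sum_erase _ _ (Finset.mem_univ i), h1,
        Finset.sum_eq_zero fun i' hi' => h2 i' (Finset.ne_of_mem_erase hi'), add_zero]
  -- the sum of the functionals
  obtain ⟨L, hL⟩ : ∃ L : Fin n → ℤ, L = fun c => ∑ i, u (q i) c := ⟨_, rfl⟩
  have hLx : ∀ x, lin L x = ∑ i, lin (u (q i)) x := by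
    intro x
    rw [hL]
    simp only [lin]
    rw [Finset.sum_comm]
    refine Finset.sum_congr rfl fun c _ => ?_
    push_cast
    rw [Finset.sum_mul]
  have hLx' : ∀ x, ∑ i, (lin (u (q i)) x - lo P (u (q i))) =
      lin L x - ∑ i, lo P (u (q i)) := by
    intro x
    rw [Finset.sum_sub_distrib, hLx]
  have hle1 : ∀ x ∈ P, ∑ i, (lin (u (q i)) x - lo P (u (q i))) ≤ 1 := by
    intro x hx
    rw [hLx']
    have h1 : x ∈ {x | lin L x ≤ 1 + ∑ i, lo P (u (q i))} := by
      rw [hPV] at hx
      refine convexHull_min (fun y hy => ?_) (convex_le L _) hx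
      show lin L y ≤ 1 + ∑ i, lo P (u (q i))
      have h2 := hLx' y
      rcases hsumV y hy with h | h
      · rw [Finset.sum_eq_zero fun i _ => h i] at h2
        linarith
      · rw [h] at h2
        linarith
    have h3 : lin L x ≤ 1 + ∑ i, lo P (u (q i)) := h1
    linarith
  -- a vertex over the origin
  have hzero : ∃ y ∈ V, ∀ i, lin (u (q i)) y - lo P (u (q i)) = 0 := by
    by_contra hcon
    push Not at hcon
    have h1 : ∀ y ∈ V, lin L y = 1 + ∑ i, lo P (u (q i)) := by
      intro y hy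
      rcases hsumV y hy with h | h
      · obtain ⟨i, hi'⟩ := hcon y hy
        exact absurd (h i) hi'
      · have h2 := hLx' y
        rw [h] at h2
        linarith
    have hL0 : L = 0 := by
      by_contra hL0
      have h2 := hwid L hL0
      have h3 : hi P L ≤ 1 + ∑ i, lo P (u (q i)) := by
        apply hi_le hK.nonempty
        intro x hx
        rw [hPV] at hx
        exact convexHull_min (fun y hy => (h1 y hy).le) (convex_le L _) hx
      have h4 : 1 + ∑ i, lo P (u (q i)) ≤ lo P L := by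
        apply le_lo hK.nonempty
        intro x hx
        rw [hPV] at hx
        exact convexHull_min (fun y hy => (h1 y hy).ge) (convex_ge L _) hx
      linarith
    have h5 := affineIndependent_iff.1 haff Finset.univ
      (fun i => w i - ∑ m : Fin j, if q m = i then (1 / (j : ℝ)) else 0) ?_ ?_
      (q ⟨0, hj1⟩) (Finset.mem_univ _)
    · have h6 : ∑ m : Fin j, (if q m = q ⟨0, hj1⟩ then (1 / (j : ℝ)) else 0) = 1 / j := by
        rw [Finset.sum_eq_single ⟨0, hj1⟩]
        · rw [if_pos rfl]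
        · intro m _ hm
          rw [if_neg fun h => hm (q.injective h)]
        · intro h
          exact absurd (Finset.mem_univ _) h
      rw [h6] at h5
      have h7 : w (q ⟨0, hj1⟩) = 1 / j := by linarith
      have h8 := hws (q ⟨0, hj1⟩)
      rw [h7, div_le_iff₀ hj0] at h8
      have h9 : s * j ≤ s * n := mul_le_mul_of_nonneg_left hjn hs0.le
      linarith
    · rw [Finset.sum_sub_distrib, hw1, Finset.sum_comm]
      simp only [Finset.sum_ite_eq, Finset.mem_univ, if_true, Finset.sum_const, Finset.card_univ,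
        Fintype.card_fin, nsmul_eq_mul]
      rw [mul_one_div_cancel hj0.ne', sub_self]
    · simp only [sub_smul, Finset.sum_sub_distrib]
      rw [hwz, zero_sub, neg_eq_zero]
      simp only [Finset.sum_smul, ite_smul, zero_smul]
      rw [Finset.sum_comm]
      simp only [Finset.sum_ite_eq, Finset.mem_univ, if_true]
      rw [← Finset.smul_sum]
      have h10 : ∑ m : Fin j, (fun c => (u (q m) c : ℝ) : Fin n → ℝ) = 0 := by
        funext c
        rw [Finset.sum_apply, Pi.zero_apply]
        have h11 := congrFun hL c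
        rw [hL0, Pi.zero_apply] at h11
        exact_mod_cast h11.symm
      rw [h10, smul_zero]
  obtain ⟨y0, hy0, hy0'⟩ := hzero
  refine ⟨fun i => u (q i), fun i => b (q i), fun x hx => ⟨fun i => ?_, ?_⟩,
    ⟨y0, hVP _ hy0, hVint _ hy0, fun i => ?_⟩, fun m => ⟨v (q m), hVP _ (hvV _), hVint _ (hvV _),
      fun i => ?_⟩⟩
  · rw [← hb]
    exact sub_nonneg.2 (lo_le hK _ hx)
  · simp only [← hb]
    exact hle1 x hx
  · rw [← hb]
    exact hy0' i
  · rw [← hb]
    have h1 : lin (u (q m)) (v (q m)) - lo P (u (q m)) ≠ 0 := by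
      rw [hv]
      have := hk1 (q m)
      exact_mod_cast (by omega : k (q m) ≠ 0)
    obtain ⟨h2, h3⟩ := hval _ (hvV (q m)) m h1
    by_cases him : i = m
    · rw [him, if_pos rfl]
      exact h2
    · rw [if_neg him]
      exact h3 i him

end Pool.Agent.KS6_31.FQ
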