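import Pool.Agent.KS6_31.FQ.E
import Pool.Graph.R_seed8.Y40.WC.Conv

/-! The threshold `(n + j) / 2` is sharp for every `j`. -/

set_option autoImplicit false

open Set Module Filter Topology

namespace Pool.Agent.KS6_31.FQ

open Pool.Agent.Results.MP_f2eb3d_co.WidthOne Pool.Agent.Y40.WC

variable {n : ℕ}

/-- coefficients of the facet opposite to the origin -/
def ca (n j : ℕ) (i : Fin n) : ℤ := if (i : ℕ) < n + 1 - j then 1 else 2

/-- lengths of the edges from the origin -/
def cm (n j : ℕ) (i : Fin n) : ℤ := if (i : ℕ) < n + 1 - j then 2 else 1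

theorem ca_cm (j : ℕ) (i : Fin n) : (ca n j i : ℝ) * (cm n j i : ℝ) = 2 := by
  unfold ca cm
  split_ifs <;> norm_num

theorem cm_pos (j : ℕ) (i : Fin n) : (0 : ℝ) < (cm n j i : ℝ) := by
  unfold cm
  split_ifs <;> norm_num

theorem ca_pos (j : ℕ) (i : Fin n) : (0 : ℝ) < (ca n j i : ℝ) := by
  unfold ca
  split_ifs <;> norm_num

/-- the vertices -/
noncomputable def vt (n j : ℕ) : Fin (n + 1) → Fin n → ℝ :=
  Fin.cons 0 (fun i => Pi.single i (cm n j i : ℝ))

/-- the simplex -/
def SP (n j : ℕ) : Set (Fin n → ℝ) := convexHull ℝ (Set.range (vt n j))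

theorem mem_SP (j : ℕ) {x : Fin n → ℝ} (h0 : ∀ i, 0 ≤ x i)
    (h1 : ∑ i, (ca n j i : ℝ) * x i ≤ 2) : x ∈ SP n j := by
  let wt : Fin (n + 1) → ℝ :=
    Fin.cons (1 - ∑ i, (ca n j i : ℝ) * x i / 2) (fun i => (ca n j i : ℝ) * x i / 2)
  have hmem := (convex_convexHull ℝ (Set.range (vt n j))).sum_mem (t := Finset.univ) (w := wt)
    (z := vt n j) ?_ ?_ (fun i _ => subset_convexHull ℝ _ ⟨i, rfl⟩)
  · have hx : x = ∑ i, wt i • vt n j i := by
      funext c
      rw [Finset.sum_apply, Fin.sum_univ_succ]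
      simp only [wt, vt, Fin.cons_zero, Fin.cons_succ, Pi.smul_apply, smul_eq_mul, Pi.zero_apply,
        mul_zero, zero_add, Pi.single_apply]
      have h2 : ∀ i : Fin n, (ca n j i : ℝ) * x i / 2 * (if c = i then (cm n j i : ℝ) else 0) =
          if c = i then x i else 0 := by
        intro i
        split_ifs
        · have := ca_cm (n := n) j i
          linear_combination (x i / 2) * this
        · ring
      rw [Finset.sum_congr rfl fun i _ => h2 i]
      simp
    rw [SP, hx]
    exact hmem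
  · intro i _
    refine Fin.cases ?_ (fun i => ?_) i
    · simp only [wt, Fin.cons_zero]
      rw [← Finset.sum_div]
      linarith
    · simp only [wt, Fin.cons_succ]
      have := mul_nonneg (ca_pos j i).le (h0 i)
      linarith
  · rw [Fin.sum_univ_succ]
    simp only [wt, Fin.cons_zero, Fin.cons_succ]
    ring

theorem lin_ca (j : ℕ) (x : Fin n → ℝ) :
    lin (fun i => -ca n j i) x = -∑ i, (ca n j i : ℝ) * x i := by
  rw [lin, ← Finset.sum_neg_distrib]
  refine Finset.sum_congr rfl fun i _ => ?_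
  push_cast
  ring

theorem SP_sub (j : ℕ) {x : Fin n → ℝ} (hx : x ∈ SP n j) :
    (∀ i, 0 ≤ x i) ∧ ∑ i, (ca n j i : ℝ) * x i ≤ 2 := by
  constructor
  · intro i
    have h1 : x ∈ {x | (0 : ℝ) ≤ lin (Pi.single i (1 : ℤ)) x} := by
      refine convexHull_min ?_ (convex_ge _ _) hx
      rintro _ ⟨k, rfl⟩
      show 0 ≤ lin (Pi.single i (1 : ℤ)) (vt n j k)
      rw [lin_single_left]
      refine Fin.cases ?_ (fun k => ?_) k
      · simp [vt]
      · simp only [vt, Fin.cons_succ, Pi.single_apply]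
        split_ifs
        · exact (cm_pos j k).le
        · exact le_rfl
    have h2 : (0 : ℝ) ≤ lin (Pi.single i (1 : ℤ)) x := h1
    rwa [lin_single_left] at h2
  · have h1 : x ∈ {x | (-2 : ℝ) ≤ lin (fun i => -ca n j i) x} := by
      refine convexHull_min ?_ (convex_ge _ _) hx
      rintro _ ⟨k, rfl⟩
      show (-2 : ℝ) ≤ lin (fun i => -ca n j i) (vt n j k)
      refine Fin.cases ?_ (fun k => ?_) k
      · simp [vt, lin]
      · simp only [vt, Fin.cons_succ]
        rw [lin_single]
        push_cast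
        have := ca_cm (n := n) j k
        linarith
    have h2 : (-2 : ℝ) ≤ lin (fun i => -ca n j i) x := h1
    rw [lin_ca] at h2
    linarith

theorem SP_lattice (hn : 1 ≤ n) (j : ℕ) : IsLatticePolytope (SP n j) := by
  refine ⟨⟨Set.range (vt n j), Set.finite_range _, ?_, rfl⟩, ?_⟩
  · rintro _ ⟨k, rfl⟩ i
    refine Fin.cases ?_ (fun k => ?_) k
    · exact ⟨0, by simp [vt]⟩
    · refine ⟨if i = k then cm n j k else 0, ?_⟩
      simp only [vt, Fin.cons_succ, Pi.single_apply]
      split_ifs <;> simp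
  · have hn0 : (0 : ℝ) < n := by exact_mod_cast hn
    have hopen : IsOpen {x : Fin n → ℝ | (∀ i, 0 < x i) ∧ ∑ i, (ca n j i : ℝ) * x i < 2} := by
      apply IsOpen.and
      · rw [show {x : Fin n → ℝ | ∀ i, 0 < x i} = ⋂ i, {x | 0 < x i} by ext; simp]
        exact isOpen_iInter_of_finite fun i => isOpen_lt continuous_const (continuous_apply i)
      · exact isOpen_lt (by fun_prop) continuous_const
    have hsub : {x : Fin n → ℝ | (∀ i, 0 < x i) ∧ ∑ i, (ca n j i : ℝ) * x i < 2} ⊆ SP n j :=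
      fun x hx => mem_SP j (fun i => (hx.1 i).le) hx.2.le
    refine ⟨fun _ => 1 / (2 * n), interior_maximal hsub hopen ⟨fun i => by positivity, ?_⟩⟩
    have h1 : ∑ i : Fin n, (ca n j i : ℝ) * (1 / (2 * n)) ≤ ∑ _i : Fin n, 2 * (1 / (2 * (n : ℝ))) := by
      refine Finset.sum_le_sum fun i _ => mul_le_mul_of_nonneg_right ?_ (by positivity)
      unfold ca
      split_ifs <;> norm_num
    rw [Finset.sum_const, Finset.card_univ, Fintype.card_fin, nsmul_eq_mul] at h1
    have h2 : (n : ℝ) * (2 * (1 / (2 * n))) = 1 := by field_simp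
    linarith

theorem vt_mem (j : ℕ) (c : Fin n) : (Pi.single c (cm n j c : ℝ) : Fin n → ℝ) ∈ SP n j :=
  subset_convexHull ℝ _ ⟨c.succ, by simp [vt]⟩

theorem zero_mem (j : ℕ) : (0 : Fin n → ℝ) ∈ SP n j :=
  subset_convexHull ℝ _ ⟨0, by simp [vt]⟩

theorem facet_i (j : ℕ) (i : Fin n) : IsFacet (SP n j) (Pi.single i 1) 0 := by
  refine isFacet_of ?_ ?_ ?_ ?_
  · intro k hk
    have := hk i
    rw [Pi.single_eq_same] at this
    exact isUnit_of_dvd_one this
  · intro x hx
    rw [lin_single_left, Int.cast_zero]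
    exact (SP_sub j hx).1 i
  · exact ⟨0, zero_mem j, by rw [lin_single_left]; simp⟩
  · intro y hy
    rw [lin_single_left] at hy
    have h1 : y = ∑ c, (y c / (cm n j c : ℝ)) • (Pi.single c (cm n j c : ℝ) - 0 : Fin n → ℝ) := by
      funext e
      rw [Finset.sum_apply]
      simp only [sub_zero, Pi.smul_apply, smul_eq_mul, Pi.single_apply]
      have h2 : ∀ c : Fin n, y c / (cm n j c : ℝ) * (if e = c then (cm n j c : ℝ) else 0) =
          if e = c then y c else 0 := by
        intro c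
        split_ifs
        · exact div_mul_cancel₀ _ (cm_pos j c).ne'
        · exact mul_zero _
      rw [Finset.sum_congr rfl fun c _ => h2 c]
      simp
    rw [h1]
    apply Submodule.sum_mem
    intro c _
    by_cases hc : c = i
    · rw [hc, hy, zero_div, zero_smul]
      exact Submodule.zero_mem _
    · apply Submodule.smul_mem
      rw [← vsub_eq_sub]
      apply vsub_mem_vectorSpan
      · refine ⟨vt_mem j c, ?_⟩
        rw [lin_single_left, Pi.single_apply, if_neg (fun h => hc h.symm), Int.cast_zero]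
      · refine ⟨zero_mem j, ?_⟩
        rw [lin_single_left]
        simp

theorem facet_0 (hn : 1 ≤ n) {j : ℕ} (hj : j ≤ n) :
    IsFacet (SP n j) (fun i => -ca n j i) (-2) := by
  have hval : ∀ c : Fin n, lin (fun i => -ca n j i) (Pi.single c (cm n j c : ℝ)) =
      ((-2 : ℤ) : ℝ) := by
    intro c
    rw [lin_single]
    push_cast
    have := ca_cm (n := n) j c
    linarith
  refine isFacet_of ?_ ?_ ?_ ?_
  · intro k hk
    have h1 := hk ⟨0, hn⟩
    simp only [ca] at h1
    rw [if_pos (by omega)] at h1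
    exact isUnit_of_dvd_one ((dvd_neg).1 h1)
  · intro x hx
    rw [lin_ca]
    push_cast
    linarith [(SP_sub j hx).2]
  · exact ⟨_, vt_mem j ⟨0, hn⟩, hval _⟩
  · intro y hy
    rw [lin_ca, neg_eq_zero] at hy
    have h1 : y = ∑ c, (y c / (cm n j c : ℝ)) • ((Pi.single c (cm n j c : ℝ) : Fin n → ℝ) -
        (Pi.single ⟨0, hn⟩ (cm n j ⟨0, hn⟩ : ℝ) : Fin n → ℝ)) := by
      simp only [smul_sub, Finset.sum_sub_distrib]
      have h3 : ∑ c, y c / (cm n j c : ℝ) = 0 := by
        have h4 : ∀ c, y c / (cm n j c : ℝ) = ((ca n j c : ℝ) * y c) / 2 := by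
          intro c
          rw [div_eq_div_iff (cm_pos j c).ne' two_ne_zero]
          have := ca_cm (n := n) j c
          linear_combination (-y c) * this
        rw [Finset.sum_congr rfl fun c _ => h4 c, ← Finset.sum_div, hy, zero_div]
      rw [← Finset.sum_smul, h3, zero_smul, sub_zero]
      funext e
      rw [Finset.sum_apply]
      simp only [Pi.smul_apply, smul_eq_mul, Pi.single_apply]
      have h2 : ∀ c : Fin n, y c / (cm n j c : ℝ) * (if e = c then (cm n j c : ℝ) else 0) =
          if e = c then y c else 0 := by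
        intro c
        split_ifs
        · exact div_mul_cancel₀ _ (cm_pos j c).ne'
        · exact mul_zero _
      rw [Finset.sum_congr rfl fun c _ => h2 c]
      simp
    rw [h1]
    apply Submodule.sum_mem
    intro c _
    apply Submodule.smul_mem
    rw [← vsub_eq_sub]
    exact vsub_mem_vectorSpan ℝ ⟨vt_mem j c, hval c⟩ ⟨vt_mem j _, hval _⟩

theorem sum_ca {j : ℕ} (hj1 : 1 ≤ j) (hj : j ≤ n) :
    ∑ i : Fin n, (ca n j i : ℝ) = (n : ℝ) + j - 1 := by
  have h1 : ∑ i : Fin n, (ca n j i : ℝ) =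
      ∑ i ∈ Finset.range n, (if i < n + 1 - j then (1 : ℝ) else 2) := by
    rw [← Fin.sum_univ_eq_sum_range (fun i => if i < n + 1 - j then (1 : ℝ) else 2) n]
    refine Finset.sum_congr rfl fun i _ => ?_
    unfold ca
    split_ifs <;> norm_num
  rw [h1, ← Finset.sum_range_add_sum_Ico _ (by omega : n + 1 - j ≤ n),
    Finset.sum_congr rfl (g := fun _ => (1 : ℝ)) (fun i hi => if_pos (Finset.mem_range.1 hi)),
    Finset.sum_congr (s₁ := Finset.Ico (n + 1 - j) n) rfl (g := fun _ => (2 : ℝ))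
      (fun i hi => if_neg (not_lt.2 (Finset.mem_Ico.1 hi).1)),
    Finset.sum_const, Finset.sum_const, Finset.card_range, Nat.card_Ico, nsmul_eq_mul,
    nsmul_eq_mul]
  have h2 : ((n + 1 - j : ℕ) : ℝ) = (n : ℝ) + 1 - j := by
    rw [Nat.cast_sub (by omega)]
    push_cast
    ring
  have h3 : ((n - (n + 1 - j) : ℕ) : ℝ) = (j : ℝ) - 1 := by
    rw [Nat.cast_sub (by omega), h2]
    ring
  rw [h2, h3]
  ring

theorem SP_qcodeg (hn : 1 ≤ n) {j : ℕ} (hj1 : 1 ≤ j) (hj : j ≤ n) :
    ((n : ℝ) + j) / 2 ≤ qcodeg (SP n j) := by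
  have hP := SP_lattice hn j
  have hK := body_of hP
  have hnj : (0 : ℝ) < (n : ℝ) + j := by positivity
  obtain ⟨-, -, hpos⟩ := latWidth_spec hn hK
  have hne : {s : ℝ | 0 < s ∧ (adjoint (SP n j) s).Nonempty}.Nonempty := by
    obtain ⟨x, hx⟩ := fine_nonempty hn hK
    refine ⟨latWidth (SP n j) / (n + 1), by positivity, x, fun a b hab => ?_⟩
    have h1 := hx a (facet_ne_zero hab)
    have h2 : (b : ℝ) ≤ lo (SP n j) a := le_lo hK.nonempty hab.2.1
    linarith
  have hub : ∀ s ∈ {s : ℝ | 0 < s ∧ (adjoint (SP n j) s).Nonempty}, s ≤ 2 / ((n : ℝ) + j) := by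
    rintro s ⟨hs, x, hx⟩
    rw [le_div_iff₀ hnj]
    have h1 := hx _ _ (facet_0 hn hj)
    rw [lin_ca] at h1
    push_cast at h1
    have h2 : ∑ i, (ca n j i : ℝ) * s ≤ ∑ i, (ca n j i : ℝ) * x i := by
      refine Finset.sum_le_sum fun i _ => mul_le_mul_of_nonneg_left ?_ (ca_pos j i).le
      have := hx _ _ (facet_i j i)
      rw [lin_single_left, Int.cast_zero, sub_zero] at this
      exact this
    rw [← Finset.sum_mul, sum_ca hj1 hj] at h2
    linarith
  have hsup := csSup_le hne hub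
  obtain ⟨s0, hs0⟩ := hne
  have hs0' := le_csSup ⟨_, hub⟩ hs0
  have h3 := inv_anti₀ (lt_of_lt_of_le hs0.1 hs0') hsup
  rw [inv_div] at h3
  exact h3

theorem SP_not {j : ℕ} (hj1 : 1 ≤ j) (hj : j ≤ n) : ¬ IsCayley (SP n j) j := by
  classical
  rintro ⟨l, c, hb, ⟨v0, hv0, -, hv0'⟩, hk⟩
  choose v hv hvi hv' using hk
  have hb1 : ∀ x ∈ SP n j, ∀ i, 0 ≤ lin (l i) x - c i ∧ lin (l i) x - c i ≤ 1 := by
    intro x hx i
    obtain ⟨h1, h2⟩ := hb x hx
    exact ⟨h1 i, (Finset.single_le_sum (f := fun i => lin (l i) x - c i) (fun i _ => h1 i)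
      (Finset.mem_univ i)).trans h2⟩
  have hzero : ∀ (i : Fin j) (e : Fin n), (e : ℕ) < n + 1 - j → l i e = 0 := by
    intro i e he
    have h1 := hb1 0 (zero_mem j) i
    have h2 := hb1 _ (vt_mem j e) i
    rw [lin_single] at h2
    have h3 : lin (l i) 0 = 0 := by simp [lin]
    have h4 : cm n j e = 2 := if_pos he
    rw [h3] at h1
    rw [h4] at h2
    push_cast at h2
    have h5 : (l i e : ℝ) < 1 := by linarith [h1.1, h1.2, h2.1, h2.2]
    have h6 : (-1 : ℝ) < l i e := by linarith [h1.1, h1.2, h2.1, h2.2]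
    have h7 : l i e < 1 := by exact_mod_cast h5
    have h8 : -1 < l i e := by exact_mod_cast h6
    omega
  let A : Matrix (Fin j) (Fin n) ℝ := Matrix.of fun i e => (l i e : ℝ)
  let D : Fin n → ℝ := fun e => if (e : ℕ) < n + 1 - j then 0 else 1
  let B : Matrix (Fin n) (Fin j) ℝ := Matrix.of fun e k => v k e - v0 e
  have hI : A * (Matrix.diagonal D * B) = 1 := by
    ext i k
    rw [Matrix.mul_apply, Matrix.one_apply]
    have h1 : ∀ e, A i e * (Matrix.diagonal D * B) e k = (l i e : ℝ) * (v k e - v0 e) := by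
      intro e
      rw [Matrix.diagonal_mul]
      simp only [A, B, D, Matrix.of_apply]
      split_ifs with he
      · rw [hzero i e he]
        simp
      · ring
    rw [Finset.sum_congr rfl fun e _ => h1 e]
    have h2 : ∑ e, (l i e : ℝ) * (v k e - v0 e) = lin (l i) (v k) - lin (l i) v0 := by
      rw [lin, lin, ← Finset.sum_sub_distrib]
      exact Finset.sum_congr rfl fun e _ => by ring
    rw [h2]
    have h3 := hv0' i
    have h4 := hv' k i
    rw [← h4]
    linarith
  have hr1 : (A * (Matrix.diagonal D * B)).rank = j := by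
    rw [hI, Matrix.rank_one, Fintype.card_fin]
  have hr2 : (A * (Matrix.diagonal D * B)).rank ≤ (Matrix.diagonal D).rank :=
    (Matrix.rank_mul_le_right _ _).trans (Matrix.rank_mul_le_left _ _)
  rw [Matrix.rank_diagonal] at hr2
  have hr3 : Fintype.card {e // D e ≠ 0} ≤ j - 1 := by
    have hD : ∀ e : {e // D e ≠ 0}, n + 1 - j ≤ (e.1 : ℕ) := by
      intro e
      by_contra hc
      exact e.2 (if_pos (not_le.1 hc))
    have hinj : Function.Injective (fun e : {e // D e ≠ 0} =>
        (⟨(e.1 : ℕ) - (n + 1 - j), by have := hD e; have := e.1.2; omega⟩ : Fin (j - 1))) := by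
      intro e e' hee
      have h1 := hD e
      have h2 := hD e'
      have h3 : (e.1 : ℕ) - (n + 1 - j) = (e'.1 : ℕ) - (n + 1 - j) := congrArg Fin.val hee
      exact Subtype.ext (Fin.ext (by omega))
    have := Fintype.card_le_of_injective _ hinj
    rwa [Fintype.card_fin] at this
  omega

end Pool.Agent.KS6_31.FQ
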